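import Pool.Agent.W_MP_83aea7_lc.WO

set_option autoImplicit false

/-!
# MP_315f31_lc, part C: cardinality in a model of ZFC

`Cov E b a` : `a` is covered by the range of a function with domain `b` (a version of `|a| ≤ |b|`
for nonempty `b`).  Hartogs numbers.
-/

namespace HESR
universe u
variable {N : Type u} {E : N → N → Prop}

theorem Def.sub1 {P : N → Prop} (h : Def1 E P) {k : ℕ} {f : (Fin k → N) → N} (hf : DefFun E f) :
    Def E (fun v => P (f v)) := by
  refine Def.subst (R := fun x _ => P x) ?_ hf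
  exact (Def.rename h ![0]).congr fun v => by simp

theorem Def.sub2 {R : N → N → Prop} (h : Def2 E R) {k : ℕ} {f g : (Fin k → N) → N} (hf : DefFun E f)
    (hg : DefFun E g) : Def E (fun v => R (f v) (g v)) := by
  refine Def.subst (R := fun x v => R x (g v)) ?_ hf
  refine Def.subst (R := fun y w => R (w 0) y) ?_ hg.shift
  exact (Def.rename h ![1, 0]).congr fun v => by simp

theorem Def.sub3 {R : N → N → N → Prop} (h : Def E (fun v : Fin 3 → N => R (v 0) (v 1) (v 2)))
    {k : ℕ} {f g l : (Fin k → N) → N} (hf : DefFun E f) (hg : DefFun E g) (hl : DefFun E l) :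
    Def E (fun v => R (f v) (g v) (l v)) := by
  refine Def.subst (R := fun x v => R x (g v) (l v)) ?_ hf
  refine Def.subst (R := fun y w => R (w 0) y (l fun i => w i.succ)) ?_ hg.shift
  refine Def.subst (R := fun z w => R (w 1) (w 0) z) ?_ hl.shift.shift
  exact (Def.rename h ![2, 1, 0]).congr fun v => by simp

/-- `a` is covered by the range of a function with domain `b` -/
def Cov (E : N → N → Prop) (b a : N) : Prop := ∃ f, IsFun E f b ∧ ∀ y, E y a → ∃ x, App E f x y

theorem Cov.df {k : ℕ} {f g : (Fin k → N) → N} (hf : DefFun E f) (hg : DefFun E g) :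
    Def E (fun v => Cov E (f v) (g v)) :=
  Def.sub2 (R := fun b a => Cov E b a) (by unfold Cov; (repeat' (first | assumption | (apply DefFun.comp; assumption) | apply Instr.df | apply IsNum.df | apply IsEval.df | apply IsAsg.df | apply IsProg.df | apply IsStr.df | apply IsTyp.df | apply IsCard.df | apply HasRank.df | apply IsV.df | apply IsVseq.df | apply Maps.df | apply IsFun.df | apply App.df | apply IsOmega.df | apply IsNat.df | apply IsZS.df | apply IsOrd.df | apply IsTr.df | apply IsSucc.df | apply IsPair.df | apply IsUPair.df | apply IsEmp.df | apply Sub.df | exact DefFun.var _ | exact DefFun.const _ | apply Def.eq | apply Def.mem | apply Def.not | apply Def.and | apply Def.or | apply Def.iff | apply Def.imp | apply Def.exU | apply Def.ex | apply Def.all))) hf hg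

section
variable (hZ : IsZFC E)
include hZ

/-- the main constructor -/
theorem Cov.ofRel {R : N → N → Prop} (hR : Def2 E R) {a b : N}
    (hf : ∀ x, E x b → ∀ y z, R x y → R x z → y = z) (hs : ∀ y, E y a → ∃ x, E x b ∧ R x y) :
    Cov E b a := by
  obtain ⟨e, he⟩ := hZ.exEmp
  have h1 : Def E (fun v : Fin 2 → N => ∃ z, R (v 0) z) :=
    Def.ex (R := fun z v => R (v 0) z) (Def.sub2 hR (DefFun.var _) (DefFun.var _))
  obtain ⟨f, hf', happ⟩ := hZ.exFun (R := fun x y => R x y ∨ (¬ (∃ z, R x z) ∧ y = e))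
    (Def.or hR (Def.and (Def.not h1) (Def.eq (DefFun.var _) (DefFun.const _)))) b (fun x hx => by
      by_cases h : ∃ z, R x z
      · obtain ⟨z, hz⟩ := h
        refine ⟨z, Or.inl hz, ?_⟩
        rintro y (hy | ⟨hy, _⟩)
        · exact hf x hx y z hy hz
        · exact (hy ⟨z, hz⟩).elim
      · refine ⟨e, Or.inr ⟨h, rfl⟩, ?_⟩
        rintro y (hy | ⟨_, hy⟩)
        · exact (h ⟨y, hy⟩).elim
        · exact hy)
  refine ⟨f, hf', fun y hy => ?_⟩
  obtain ⟨x, hx, hxy⟩ := hs y hy
  exact ⟨x, (happ x hx y).2 (Or.inl hxy)⟩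

theorem Cov.refl (a : N) : Cov E a a := by
  refine Cov.ofRel hZ (R := fun x y => y = x) (by (repeat' (first | assumption | (apply DefFun.comp; assumption) | apply Instr.df | apply IsNum.df | apply IsEval.df | apply IsAsg.df | apply IsProg.df | apply IsStr.df | apply IsTyp.df | apply IsCard.df | apply HasRank.df | apply IsV.df | apply IsVseq.df | apply Maps.df | apply IsFun.df | apply App.df | apply IsOmega.df | apply IsNat.df | apply IsZS.df | apply IsOrd.df | apply IsTr.df | apply IsSucc.df | apply IsPair.df | apply IsUPair.df | apply IsEmp.df | apply Sub.df | exact DefFun.var _ | exact DefFun.const _ | apply Def.eq | apply Def.mem | apply Def.not | apply Def.and | apply Def.or | apply Def.iff | apply Def.imp | apply Def.exU | apply Def.ex | apply Def.all))) ?_ ?_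
  · rintro x _ y z rfl rfl
    rfl
  · intro y hy
    exact ⟨y, hy, rfl⟩

omit hZ in
theorem Cov.mono {b a a' : N} (h : Cov E b a) (h' : Sub E a' a) : Cov E b a' := by
  obtain ⟨f, hf, hs⟩ := h
  exact ⟨f, hf, fun y hy => hs y (h' y hy)⟩

theorem Cov.ofSub {b a : N} (h : Sub E a b) : Cov E b a := (Cov.refl hZ b).mono h

theorem Cov.trans {c b a : N} (h : Cov E c b) (h' : Cov E b a) : Cov E c a := by
  obtain ⟨f, hf, hs⟩ := h
  obtain ⟨g, hg, hs'⟩ := h'
  refine Cov.ofRel hZ (R := fun x z => ∃ y, App E f x y ∧ App E g y z) (by (repeat' (first | assumption | (apply DefFun.comp; assumption) | apply Instr.df | apply IsNum.df | apply IsEval.df | apply IsAsg.df | apply IsProg.df | apply IsStr.df | apply IsTyp.df | apply IsCard.df | apply HasRank.df | apply IsV.df | apply IsVseq.df | apply Maps.df | apply IsFun.df | apply App.df | apply IsOmega.df | apply IsNat.df | apply IsZS.df | apply IsOrd.df | apply IsTr.df | apply IsSucc.df | apply IsPair.df | apply IsUPair.df | apply IsEmp.df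 | apply Sub.df | exact DefFun.var _ | exact DefFun.const _ | apply Def.eq | apply Def.mem | apply Def.not | apply Def.and | apply Def.or | apply Def.iff | apply Def.imp | apply Def.exU | apply Def.ex | apply Def.all))) ?_ ?_
  · rintro x _ z z' ⟨y, h1, h2⟩ ⟨y', h1', h2'⟩
    obtain rfl := hf.val hZ h1 h1'
    exact hg.val hZ h2 h2'
  · intro z hz
    obtain ⟨y, hy⟩ := hs' z hz
    obtain ⟨x, hx⟩ := hs y (hg.dom hZ hy)
    exact ⟨x, hf.dom hZ hx, y, hx, hy⟩

theorem Cov.dom_mono {b b' a : N} (h : Cov E b a) (h' : Sub E b b') : Cov E b' a :=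
  Cov.trans hZ (Cov.ofSub hZ h') h

/-- if the preimages of the order relations under two surjections onto ordinals agree, the
ordinals agree; auxiliary for the Hartogs number -/
theorem hartogs_aux {a f α f' α' : N} (hf : IsFun E f a) (hf' : IsFun E f' a)
    (hα : IsOrd E α) (hα' : IsOrd E α')
    (hs : ∀ y, E y α → ∃ x, App E f x y) (hs' : ∀ y, E y α' → ∃ x, App E f' x y)
    (hr : ∀ x y, E x a → E y a → ((∃ u v, App E f x u ∧ App E f y v ∧ (E u v ∨ u = v) ∧ E v α) ↔
      ∃ u v, App E f' x u ∧ App E f' y v ∧ (E u v ∨ u = v) ∧ E v α')) :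
    Sub E α α' := by
  -- `f` and `f'` agree on the preimage of `α`
  have key : ∀ β, IsOrd E β → (E β α → ∀ x, App E f x β → App E f' x β ∧ E β α') := by
    refine IsOrd.ind hZ (P := fun β => E β α → ∀ x, App E f x β → App E f' x β ∧ E β α') (by (repeat' (first | assumption | (apply DefFun.comp; assumption) | apply Instr.df | apply IsNum.df | apply IsEval.df | apply IsAsg.df | apply IsProg.df | apply IsStr.df | apply IsTyp.df | apply IsCard.df | apply HasRank.df | apply IsV.df | apply IsVseq.df | apply Maps.df | apply IsFun.df | apply App.df | apply IsOmega.df | apply IsNat.df | apply IsZS.df | apply IsOrd.df | apply IsTr.df | apply IsSucc.df | apply IsPair.df | apply IsUPair.df | apply IsEmp.df | apply Sub.df | exact DefFun.var _ | exact DefFun.const _ | apply Def.eq | apply Def.mem | apply Def.not | apply Def.and | apply Def.or | apply Def.iff | apply Def.imp | apply Def.exU | apply Def.ex | apply Def.all))) ?_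
    intro β hβ ih hβα x hx
    have hxa := hf.dom hZ hx
    obtain ⟨u', v', h1, h2, h3, h4⟩ := (hr x x hxa hxa).1 ⟨β, β, hx, hx, Or.inr rfl, hβα⟩
    obtain rfl := hf'.val hZ h1 h2
    -- `f' x = u'`; show `u' = β`
    have hu' : IsOrd E u' := hα'.mem h4
    have : β = u' := by
      rcases hβ.tri hZ hu' with h5 | h5 | h5
      · exfalso
        obtain ⟨z, hz⟩ := hs' β (hα'.trans h4 h5)
        have hza := hf'.dom hZ hz
        obtain ⟨p, q, hp, hq, hpq, hqα⟩ := (hr z x hza hxa).2 ⟨β, u', hz, h1, Or.inl h5, h4⟩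
        obtain rfl := hf.val hZ hx hq
        rcases hpq with hpq | rfl
        · obtain h6 := (ih p hpq (hα.trans hβα hpq) z hp).1
          obtain rfl := hf'.val hZ hz h6
          exact hZ.irrefl _ hpq
        · obtain ⟨p', q', hp', hq', hpq', hqα'⟩ := (hr x z hxa hza).1 ⟨p, p, hx, hp, Or.inr rfl, hqα⟩
          obtain rfl := hf'.val hZ h1 hp'
          obtain rfl := hf'.val hZ hz hq'
          rcases hpq' with h8 | rfl
          · exact hZ.asymm h5 h8
          · exact hZ.irrefl _ h5
      · exact h5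
      · exfalso
        obtain ⟨z, hz⟩ := hs u' (hα.trans hβα h5)
        obtain ⟨h6, h7⟩ := ih u' h5 (hα.trans hβα h5) z hz
        have hza := hf.dom hZ hz
        obtain ⟨p, q, hp, hq, hpq, hqα⟩ := (hr x z hxa hza).2 ⟨u', u', h1, h6, Or.inr rfl, h4⟩
        obtain rfl := hf.val hZ hx hp
        obtain rfl := hf.val hZ hz hq
        rcases hpq with h8 | rfl
        · exact hZ.asymm h5 h8
        · exact hZ.irrefl _ h5
    exact this ▸ ⟨h1, h4⟩
  intro β hβ
  obtain ⟨x, hx⟩ := hs β hβ
  exact (key β (hα.mem hβ) hβ x hx).2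

/-- the ordinals covered by `a` are bounded -/
theorem IsZFC.covBound (a : N) : ∃ β, IsOrd E β ∧ ∀ α, IsOrd E α → Cov E a α → E α β := by
  obtain ⟨pr, hpr⟩ := hZ.exProd a a
  obtain ⟨q, hq⟩ := hZ.exPow pr
  -- `r` codes the preimage of the order relation on `α`
  let R : N → N → Prop := fun r α => IsOrd E α ∧ ∃ f, IsFun E f a ∧ (∀ y, E y α → ∃ x, App E f x y) ∧
    ∀ x y p, E x a → E y a → IsPair E p x y →
      (E p r ↔ ∃ u v, App E f x u ∧ App E f y v ∧ (E u v ∨ u = v) ∧ E v α)
  have hR : Def2 E R := by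
    show Def E (fun v : Fin 2 → N => IsOrd E (v 1) ∧ ∃ f, IsFun E f a ∧ (∀ y, E y (v 1) → ∃ x, App E f x y) ∧
      ∀ x y p, E x a → E y a → IsPair E p x y →
        (E p (v 0) ↔ ∃ u w, App E f x u ∧ App E f y w ∧ (E u w ∨ u = w) ∧ E w (v 1)))
    (repeat' (first | assumption | (apply DefFun.comp; assumption) | apply Instr.df | apply IsNum.df | apply IsEval.df | apply IsAsg.df | apply IsProg.df | apply IsStr.df | apply IsTyp.df | apply IsCard.df | apply HasRank.df | apply IsV.df | apply IsVseq.df | apply Maps.df | apply IsFun.df | apply App.df | apply IsOmega.df | apply IsNat.df | apply IsZS.df | apply IsOrd.df | apply IsTr.df | apply IsSucc.df | apply IsPair.df | apply IsUPair.df | apply IsEmp.df | apply Sub.df | exact DefFun.var _ | exact DefFun.const _ | apply Def.eq | apply Def.mem | apply Def.not | apply Def.and | apply Def.or | apply Def.iff | apply Def.imp | apply Def.exU | apply Def.ex | apply Def.all))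
  have hu : ∀ r, E r q → ∀ α α', R r α → R r α' → α = α' := by
    rintro r _ α α' ⟨hα, f, hf, hs, hr⟩ ⟨hα', f', hf', hs', hr'⟩
    have h1 : ∀ x y, E x a → E y a → ((∃ u v, App E f x u ∧ App E f y v ∧ (E u v ∨ u = v) ∧ E v α) ↔
      ∃ u v, App E f' x u ∧ App E f' y v ∧ (E u v ∨ u = v) ∧ E v α') := by
      intro x y hx hy
      obtain ⟨p, hp⟩ := hZ.exPair x y
      exact (hr x y p hx hy hp).symm.trans (hr' x y p hx hy hp)
    exact hZ.sub_antisymm (hartogs_aux hZ hf hf' hα hα' hs hs' h1)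
      (hartogs_aux hZ hf' hf hα' hα hs' hs fun x y hx hy => (h1 x y hx hy).symm)
  obtain ⟨s, hs⟩ := hZ.repl2 hR q hu
  obtain ⟨β, hβ, hb⟩ := hZ.ordBound (a := s) (fun α hα => by
    obtain ⟨r, _, hr⟩ := (hs α).1 hα
    exact hr.1)
  refine ⟨β, hβ, fun α hα hc => hb α ((hs α).2 ?_)⟩
  obtain ⟨f, hf, hfs⟩ := hc
  obtain ⟨r, hr⟩ := hZ.sep1 (P := fun p => ∃ x y u v, IsPair E p x y ∧ App E f x u ∧ App E f y v ∧
    (E u v ∨ u = v) ∧ E v α) (by (repeat' (first | assumption | (apply DefFun.comp; assumption) | apply Instr.df | apply IsNum.df | apply IsEval.df | apply IsAsg.df | apply IsProg.df | apply IsStr.df | apply IsTyp.df | apply IsCard.df | apply HasRank.df | apply IsV.df | apply IsVseq.df | apply Maps.df | apply IsFun.df | apply App.df | apply IsOmega.df | apply IsNat.df | apply IsZS.df | apply IsOrd.df | apply IsTr.df | apply IsSucc.df | apply IsPair.df | apply IsUPair.df | apply IsEmp.df | apply Sub.df | exact DefFun.var _ | exact DefFun.const _ | apply Def.eq | apply Def.mem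 | apply Def.not | apply Def.and | apply Def.or | apply Def.iff | apply Def.imp | apply Def.exU | apply Def.ex | apply Def.all))) pr
  refine ⟨r, (hq r).2 fun p hp => ((hr p).1 hp).1, hα, f, hf, hfs, ?_⟩
  intro x y p hx hy hp
  rw [hr]
  constructor
  · rintro ⟨_, x', y', u, v, hp', h1, h2, h3, h4⟩
    obtain ⟨rfl, rfl⟩ := IsPair.inj hZ hp hp'
    exact ⟨u, v, h1, h2, h3, h4⟩
  · rintro ⟨u, v, h1, h2, h3, h4⟩
    exact ⟨(hpr p).2 ⟨x, y, hx, hy, hp⟩, x, y, u, v, hp, h1, h2, h3, h4⟩

/-- `κ` is the Hartogs number of `a`: the set of all ordinals covered by `a` -/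
def IsHart (E : N → N → Prop) (a κ : N) : Prop := IsOrd E κ ∧ ∀ α, IsOrd E α → (E α κ ↔ Cov E a α)

omit hZ in
theorem IsHart.df {k : ℕ} {f g : (Fin k → N) → N} (hf : DefFun E f) (hg : DefFun E g) :
    Def E (fun v => IsHart E (f v) (g v)) :=
  Def.sub2 (R := fun a κ => IsHart E a κ) (by
    unfold IsHart
    exact Def.and (IsOrd.df (DefFun.var _)) (Def.all (Def.imp (IsOrd.df (DefFun.var _))
      (Def.iff (Def.mem (DefFun.var _) (DefFun.var _)) (Cov.df (DefFun.var _) (DefFun.var _)))))) hf hg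

theorem IsZFC.exHart (a : N) : ∃ κ, IsHart E a κ := by
  obtain ⟨β, hβ, hb⟩ := hZ.covBound a
  obtain ⟨κ, hκ⟩ := hZ.sep1 (P := fun α => Cov E a α) (Cov.df (DefFun.const _) (DefFun.var _)) β
  have hmem : ∀ α, IsOrd E α → (E α κ ↔ Cov E a α) := fun α hα =>
    ⟨fun h => ((hκ α).1 h).2, fun h => (hκ α).2 ⟨hb α hα h, h⟩⟩
  refine ⟨κ, ⟨?_, ?_⟩, hmem⟩
  · intro α hα γ hγ
    have hαo : IsOrd E α := hβ.mem ((hκ α).1 hα).1
    exact (hmem γ (hαo.mem hγ)).2 (((hmem α hαo).1 hα).mono fun z hz => hαo.trans hγ hz)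
  · intro α hα
    exact (hβ.mem ((hκ α).1 hα).1).1

theorem IsHart.not_cov {a κ : N} (h : IsHart E a κ) : ¬ Cov E a κ := fun hc =>
  hZ.irrefl κ ((h.2 κ h.1).2 hc)

theorem IsHart.uniq {a κ κ' : N} (h : IsHart E a κ) (h' : IsHart E a κ') : κ = κ' :=
  hZ.ext _ _ fun x =>
    ⟨fun hx => (h'.2 x (h.1.mem hx)).2 ((h.2 x (h.1.mem hx)).1 hx),
      fun hx => (h.2 x (h'.1.mem hx)).2 ((h'.2 x (h'.1.mem hx)).1 hx)⟩

/-- an ordinal not covered by `a` contains the Hartogs number -/
theorem IsHart.sub {a κ α : N} (h : IsHart E a κ) (hα : IsOrd E α) (hc : ¬ Cov E a α) : Sub E κ α := by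
  rcases h.1.tri hZ hα with h1 | rfl | h1
  · exact fun z hz => hα.trans h1 hz
  · exact fun z hz => hz
  · exact (hc ((h.2 α hα).1 h1)).elim

theorem IsHart.card {a κ : N} (h : IsHart E a κ) : IsCard E κ := by
  refine ⟨h.1, fun β f hβ hf hon => h.not_cov hZ ?_⟩
  exact Cov.trans hZ ((h.2 β (h.1.mem hβ)).1 hβ) ⟨f, hf, hon⟩

omit hZ in
/-- a cardinal is not covered by its elements -/
theorem IsCard.not_cov {κ β : N} (h : IsCard E κ) (hβ : E β κ) : ¬ Cov E β κ := by
  rintro ⟨f, hf, hs⟩
  exact h.2 β f hβ hf hs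

/-- every set has a cardinality -/
theorem IsZFC.exSize (a : N) : ∃ δ, IsCard E δ ∧ Cov E δ a ∧ Cov E a δ := by
  obtain ⟨δ, g, hδ, hg, hga, hinj⟩ := hZ.exWO a
  have h1 : Cov E δ a := ⟨g, hg, fun y hy => (hga y).1 hy⟩
  have h2 : Cov E a δ := by
    refine Cov.ofRel hZ (R := fun x y => App E g y x) (by (repeat' (first | assumption | (apply DefFun.comp; assumption) | apply Instr.df | apply IsNum.df | apply IsEval.df | apply IsAsg.df | apply IsProg.df | apply IsStr.df | apply IsTyp.df | apply IsCard.df | apply HasRank.df | apply IsV.df | apply IsVseq.df | apply Maps.df | apply IsFun.df | apply App.df | apply IsOmega.df | apply IsNat.df | apply IsZS.df | apply IsOrd.df | apply IsTr.df | apply IsSucc.df | apply IsPair.df | apply IsUPair.df | apply IsEmp.df | apply Sub.df | exact DefFun.var _ | exact DefFun.const _ | apply Def.eq | apply Def.mem | apply Def.not | apply Def.and | apply Def.or | apply Def.iff | apply Def.imp | apply Def.exU | apply Def.ex | apply Def.all))) ?_ ?_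
    · intro x _ y z hy hz
      exact hinj y z x hy hz
    · intro y hy
      obtain ⟨x, hx⟩ := hg.ex hy
      exact ⟨x, (hga x).2 ⟨y, hx⟩, hx⟩
  obtain ⟨γ, hγ, ⟨hγ1, hγ2⟩, hmin⟩ := hδ.least hZ (P := fun γ => Cov E γ a ∧ Cov E a γ)
    (Def.and (Cov.df (DefFun.var _) (DefFun.const _)) (Cov.df (DefFun.const _) (DefFun.var _))) ⟨h1, h2⟩
  refine ⟨γ, ⟨hγ, fun β f hβ hf hon => hmin β hβ ⟨?_, ?_⟩⟩, hγ1, hγ2⟩
  · exact Cov.trans hZ ⟨f, hf, hon⟩ hγ1
  · exact hγ2.mono fun z hz => hγ.trans hβ hz

/-- an ordinal which contains a cardinal `κ` with `κ ∉ Hartogs a`; comparison of cardinals -/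
theorem IsCard.cov_or {κ a : N} (h : IsCard E κ) (hc : ¬ Cov E a κ) : ∃ β, E β κ ∧ Cov E β a := by
  obtain ⟨δ, hδ, h1, h2⟩ := hZ.exSize a
  rcases hδ.1.tri hZ h.1 with h3 | rfl | h3
  · exact ⟨δ, h3, h1⟩
  · exact (hc h2).elim
  · exact (hc (h2.mono fun z hz => hδ.1.trans h3 hz)).elim

end

end HESR
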