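import Pool.Agent.W_MP_315f31_lc.Stmt
import Pool.Agent.W_MP_83aea7_lc.Abs

set_option autoImplicit false

/-!
# MP_315f31_lc : consequences of dee-completeness in a model of ZFC
-/

namespace DCM
open HESR
universe u
variable {M : Type u} {E : M → M → Prop}

/-- the structure induced on a class -/
def RC (E : M → M → Prop) (H : M → Prop) : {x : M // H x} → {x : M // H x} → Prop := fun x y => E x.1 y.1

theorem satC_iff {H : M → Prop} {k : ℕ} (φ : Fml k) (v : Fin k → {x : M // H x}) :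
    Sat (RC E H) φ v ↔ SatC E H φ (fun i => (v i).1) := by
  induction φ with
  | mem i j => rfl
  | eq i j => exact Subtype.ext_iff
  | neg φ ih => simp only [Sat, SatC, ih]
  | and φ ψ ih1 ih2 => simp only [Sat, SatC, ih1, ih2]
  | ex φ ih =>
    simp only [Sat, SatC]
    constructor
    · rintro ⟨x, hx⟩
      refine ⟨x.1, x.2, ?_⟩
      rw [ih] at hx
      refine (iff_of_eq (congrArg _ ?_)).1 hx
      funext i
      refine Fin.cases ?_ (fun i => ?_) i <;> simp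
    · rintro ⟨x, hx, h⟩
      refine ⟨⟨x, hx⟩, ?_⟩
      rw [ih]
      refine (iff_of_eq (congrArg _ ?_)).1 h
      funext i
      refine Fin.cases ?_ (fun i => ?_) i <;> simp

/-- transitive classes are transitively embedded -/
theorem transEmb_RC {H : M → Prop} (hH : ∀ x y, H x → E y x → H y) : TransEmb (RC E H) E Subtype.val where
  inj := Subtype.val_injective
  mem := fun _ _ => Iff.rfl
  tr := fun x y hy => ⟨⟨y, hH x.1 y x.2 hy⟩, rfl⟩

/-- the collapse is an isomorphism -/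
theorem IsColl.sat (hZ : IsZFC E) {N Nb π : M} (h : IsColl E N Nb π) {k : ℕ} (φ : Fml k) :
    ∀ v v' : Fin k → M, (∀ i, App E π (v i) (v' i)) →
      (SatC E (fun x => E x Nb) φ v ↔ SatC E (fun x => E x N) φ v') := by
  induction φ with
  | mem i j => exact fun v v' hv => (h.2.2.2 _ _ _ _ (hv i) (hv j)).1
  | eq i j => exact fun v v' hv => (h.2.2.2 _ _ _ _ (hv i) (hv j)).2
  | neg φ ih => exact fun v v' hv => not_congr (ih v v' hv)
  | and φ ψ ih1 ih2 => exact fun v v' hv => and_congr (ih1 v v' hv) (ih2 v v' hv)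
  | ex φ ih =>
    intro v v' hv
    simp only [SatC]
    constructor
    · rintro ⟨x, hx, hs⟩
      obtain ⟨y, hy⟩ := h.2.1.1.ex hx
      refine ⟨y, h.2.1.2 x y hy, (ih _ _ fun i => ?_).1 hs⟩
      refine Fin.cases ?_ (fun i => ?_) i
      · simpa using hy
      · simpa using hv i
    · rintro ⟨y, hy, hs⟩
      obtain ⟨x, hx⟩ := h.2.2.1 y hy
      refine ⟨x, h.2.1.1.dom hZ hx, (ih _ _ fun i => ?_).2 hs⟩
      refine Fin.cases ?_ (fun i => ?_) i
      · simpa using hx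
      · simpa using hv i

/-- `D` is a dense subset of the forcing notion `P` -/
def DR (T : Type u) (E : T → T → Prop) (P D : T) : Prop :=
  ∃ Y R, IsPair E P Y R ∧ Sub E D Y ∧ ∀ x, E x Y → ∃ y, E y D ∧ App E R y x

theorem DR.fo : FO.{u} (fun T E (v : Fin 2 → T) => DR T E (v 0) (v 1)) := by
  unfold DR
  refine FO.ex (R := fun T E Y v => ∃ R, IsPair E (v 0) Y R ∧ Sub E (v 1) Y ∧ ∀ x, E x Y → ∃ y, E y (v 1) ∧ App E R y x) ?_
  refine FO.ex (R := fun T E R v => IsPair E (v 1) (v 0) R ∧ Sub E (v 2) (v 0) ∧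
    ∀ x, E x (v 0) → ∃ y, E y (v 2) ∧ App E R y x) ?_
  refine FO.and (IsPair.fo _ _ _) (FO.and (Sub.fo _ _) ?_)
  refine FO.all (R := fun T E x (v : Fin 4 → T) => E x (v 1) → ∃ y, E y (v 3) ∧ App E (v 0) y x) ?_
  refine FO.imp (FO.mem _ _) ?_
  refine FO.ex (R := fun T E y (v : Fin 5 → T) => E y (v 4) ∧ App E (v 1) y (v 0)) ?_
  exact FO.and (FO.mem _ _) (App.fo _ _ _)

/-- transfer between a transitive structure and `M` -/
theorem DR.abs {T N : Type u} {ET : T → T → Prop} {E : N → N → Prop} {i : T → N} (h : TransEmb ET E i) (P D : T) :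
    DR T ET P D ↔ DR N E (i P) (i D) := by
  constructor
  · rintro ⟨Y, R, h1, h2, h3⟩
    refine ⟨i Y, i R, h.pair.1 h1, h.sub.1 h2, h.ball.2 fun x hx => ?_⟩
    obtain ⟨y, hy, hyx⟩ := h3 x hx
    exact ⟨i y, (h.mem _ _).1 hy, h.app.1 hyx⟩
  · rintro ⟨Y, R, h1, h2, h3⟩
    obtain ⟨Y, R, rfl, rfl⟩ := h.pair_comp h1
    refine ⟨Y, R, h.pair.2 h1, h.sub.2 h2, fun x hx => ?_⟩
    obtain ⟨y, hy, hyx⟩ := h3 (i x) ((h.mem _ _).1 hx)
    obtain ⟨y, rfl⟩ := h.tr _ _ hy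
    exact ⟨y, (h.mem _ _).2 hy, h.app.2 hyx⟩

section
variable (hZ : IsZFC E)
include hZ

/-- dense sets in `N` collapse to dense sets -/
theorem IsColl.dense {θ N Nb π P D Pb Db : M} (hN : IsElem E θ N) (h : IsColl E N Nb π) (hP : App E π Pb P)
    (hD : App E π Db D) (hd : DR M E P D) : DR M E Pb Db := by
  obtain ⟨φ, hφ⟩ := DR.fo.{u}
  have hPN := h.2.1.2 _ _ hP
  have hDN := h.2.1.2 _ _ hD
  have hPb := h.2.1.1.dom hZ hP
  have hDb := h.2.1.1.dom hZ hD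
  -- in `H_θ`
  have h1 : DR _ (RC E (fun x => InH E θ x)) ⟨P, hN.2.1 P hPN⟩ ⟨D, hN.2.1 D hDN⟩ :=
    (DR.abs (transEmb_RC fun x y hx hy => hx.tr hy) _ _).2 hd
  have h2 : SatC E (fun x => InH E θ x) φ ![P, D] := by
    have h3 := (hφ _ (RC E (fun x => InH E θ x)) ![⟨P, hN.2.1 P hPN⟩, ⟨D, hN.2.1 D hDN⟩]).1 h1
    rw [satC_iff] at h3
    refine (iff_of_eq (congrArg _ ?_)).1 h3
    funext i
    fin_cases i <;> rfl
  have h3 : SatC E (fun x => E x N) φ ![P, D] := (hN.2.2 2 φ ![P, D] (fun i => by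
    fin_cases i
    · exact hPN
    · exact hDN)).2 h2
  have h4 : SatC E (fun x => E x Nb) φ ![Pb, Db] := (h.sat hZ φ ![Pb, Db] ![P, D] (fun i => by
    fin_cases i
    · exact hP
    · exact hD)).2 h3
  have h5 : DR _ (RC E (fun x => E x Nb)) ⟨Pb, hPb⟩ ⟨Db, hDb⟩ := by
    refine (hφ _ (RC E (fun x => E x Nb)) ![⟨Pb, hPb⟩, ⟨Db, hDb⟩]).2 ?_
    rw [satC_iff]
    refine (iff_of_eq (congrArg _ ?_)).1 h4
    funext i
    fin_cases i <;> rfl
  exact (DR.abs (transEmb_RC fun x y hx hy => h.1 x hx y hy) _ _).1 h5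

theorem IsOm1.hart {w w1 : M} (h : IsOm1 E w1) (hw : IsOmega E w) : IsHart E w w1 :=
  IsHart.ofMid hZ h.1 (fun α hα => by
    obtain ⟨w', hw', hc⟩ := h.2.2 α hα
    obtain rfl := hw'.uniq hZ hw
    exact hc) fun hc => h.2.1 ⟨w, hw, hc⟩

theorem IsOm1.of {w w1 : M} (hw : IsOmega E w) (h : IsHart E w w1) : IsOm1 E w1 := by
  refine ⟨h.1, ?_, fun α hα => ⟨w, hw, h.cov hZ hα⟩⟩
  rintro ⟨w', hw', hc⟩
  obtain rfl := hw'.uniq hZ hw
  exact h.not_cov hZ hc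

theorem IsOm1.uniq {a b : M} (h : IsOm1 E a) (h' : IsOm1 E b) : a = b := by
  obtain ⟨w, hw⟩ := hZ.exOmega
  exact (h.hart hZ hw).uniq hZ (h'.hart hZ hw)

theorem exOm1 : ∃ w1, IsOm1 E w1 := by
  obtain ⟨w, hw⟩ := hZ.exOmega
  obtain ⟨w1, h1⟩ := hZ.exHart w
  exact ⟨w1, IsOm1.of hZ hw h1⟩

theorem IsOm2.of {w1 w2 : M} (hw : IsOm1 E w1) (h : IsHart E w1 w2) : IsOm2 E w2 :=
  ⟨h.1, w1, hw, h.not_cov hZ, fun α hα => h.cov hZ hα⟩

theorem IsOm2.hart {w1 w2 : M} (hw : IsOm1 E w1) (h : IsOm2 E w2) : IsHart E w1 w2 := by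
  obtain ⟨h1, w, hw', h2, h3⟩ := h
  obtain rfl := hw'.uniq hZ hw
  exact IsHart.ofMid hZ h1 h3 h2

/-- **Dee-complete forcing notions are totally proper**: for all large `θ` and every countable
`N ≺ H_θ` with `P ∈ N`, every `p ∈ P ∩ N` has an extension `r` such that every dense `D ∈ N` has an
element `d ∈ D ∩ N` with `r ≤ d`. -/
theorem IsDee.lb {P Y R : M} (hP : IsPo E P Y R) (h : IsDee E P Y R) :
    ∃ θ₀, IsOrd E θ₀ ∧ ∀ θ, IsRegC E θ → E θ₀ θ → ∀ N p, IsElem E θ N → E P N → E p N → E p Y →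
      ∃ r, App E R r p ∧ ∀ D, E D N → IsDense E Y R D → ∃ d, E d D ∧ E d N ∧ App E R r d := by
  obtain ⟨θ₀, hθ₀, h1⟩ := h
  refine ⟨θ₀, hθ₀, fun θ hθ hlt N p hN hPN hpN hpY => ?_⟩
  obtain ⟨φ, s, ⟨w1, hw1, hs, hsys⟩, hb⟩ := h1 θ hθ hlt
  obtain ⟨w1', u, hw1', hu, hbd⟩ := hb N p hN hPN hpN hpY
  obtain rfl := hw1'.uniq hZ hw1
  obtain ⟨w, hw⟩ := hZ.exOmega
  obtain ⟨f, hf, happ⟩ := hZ.exFun (R := fun _ y => y = u) (by (repeat' (first | assumption | (apply DefFun.comp; assumption) | apply IsLim.df | apply Cov.df | apply IsHart.df | apply IsRegC.df | apply InH.df | apply Instr.df | apply IsNum.df | apply IsEval.df | apply IsAsg.df | apply IsProg.df | apply IsStr.df | apply IsTyp.df | apply IsCard.df | apply HasRank.df | apply IsV.df | apply IsVseq.df | apply Maps.df | apply IsFun.df | apply App.df | apply IsOmega.df | apply IsNat.df | apply IsZS.df | apply IsOrd.df | apply IsTr.df | apply IsSucc.df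 | apply IsPair.df | apply IsUPair.df | apply IsEmp.df | apply Sub.df | exact DefFun.var _ | exact DefFun.const _ | apply Def.eq | apply Def.mem | apply Def.not | apply Def.and | apply Def.or | apply Def.iff | apply Def.imp | apply Def.exU | apply Def.ex | apply Def.all))) w (fun x _ => ⟨u, rfl, fun y hy => hy⟩)
  obtain ⟨G, hG⟩ := hsys N p hN hPN hpN hpY w f hw hf (fun n u' hn => by
    have := (happ n (hf.dom hZ hn) u').1 hn
    rw [this]
    exact hu)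
  obtain ⟨z, hz⟩ := hZ.exEmp
  have hzw := hw.zero hZ hz
  have hGA := hG z u ((happ z hzw u).2 rfl)
  obtain ⟨r, hrY, hr⟩ := hbd G hGA
  obtain ⟨Nb, π, Pb, Yb, Rb, pb, Gb, w1'', hcoll, hPb, hpb, hPo, hgen, _, _, Y', R', hPo', hGdef⟩ := hGA
  obtain ⟨rfl, rfl⟩ := IsPair.inj hZ hPo'.1 hP.1
  refine ⟨r, hr p ((hGdef p).2 ⟨hpY, hpN, pb, p, hgen.2.1, hpb, hP.2.2.2.1 p hpY⟩), fun D hD hdense => ?_⟩
  obtain ⟨Db, hDb⟩ := hcoll.2.2.1 D hD
  have hd : DR M E P D := ⟨Y', R', hP.1, hdense.1, hdense.2⟩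
  obtain ⟨Y2, R2, hp2, h2, h3⟩ := hcoll.dense hZ hN hPb hDb hd
  obtain ⟨rfl, rfl⟩ := IsPair.inj hZ hPo.1 hp2
  have hDbN := hcoll.2.1.1.dom hZ hDb
  obtain ⟨x, hxG, hxD⟩ := hgen.2.2.2.2 Db hDbN ⟨h2, h3⟩
  have hxN : E x Nb := hcoll.1 Db hDbN x hxD
  obtain ⟨y, hy⟩ := hcoll.2.1.1.ex hxN
  have hyD : E y D := (hcoll.2.2.2 x Db y D hy hDb).1.1 hxD
  have hyN := hcoll.2.1.2 x y hy
  exact ⟨y, hyD, hyN, hr y ((hGdef y).2 ⟨hdense.1 y hyD, hyN, x, y, hxG, hy, hP.2.2.2.1 y (hdense.1 y hyD)⟩)⟩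

end

end DCM
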