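import Pool.Agent.W_MP_315f31_lc.C.StmtFO

set_option autoImplicit false

/-!
# MP_315f31_lc : the form in which dee-completeness, the failure of CH and the Aronszajn tree are used
-/

namespace DCM
open HESR
universe u
variable {M : Type u} {E : M → M → Prop}

/-- `N ≺ H` -/
def Elem (E : M → M → Prop) (N H : M) : Prop :=
  Sub E N H ∧ ∀ (k : ℕ) (φ : Fml k) (v : Fin k → M), (∀ i, E (v i) N) → (SatIn E N φ v ↔ SatIn E H φ v)

/-- total properness of `Q = (P, le)` with respect to the countable `N ≺ H` -/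
def TPH (E : M → M → Prop) (H Q P le : M) : Prop :=
  ∀ N, IsCtb E N → Elem E N H → E Q N → ∀ p, E p P → E p N → ∃ r, E r P ∧ App E le r p ∧
    ∀ D, E D N → IsDense E P le D → ∃ x, E x D ∧ E x N ∧ App E le r x

theorem satC_satIn {H : M} {k : ℕ} (φ : Fml k) (v : Fin k → M) : SatC E (fun x => E x H) φ v ↔ SatIn E H φ v := by
  induction φ with
  | mem i j => rfl
  | eq i j => rfl
  | neg φ ih => simp only [SatIn, SatC, ih]
  | and φ ψ ih1 ih2 => simp only [SatIn, SatC, ih1, ih2]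
  | ex φ ih => simp only [SatIn, SatC, ih]

theorem Elem.isElem {θ N H : M} (hH : ∀ x, E x H ↔ InH E θ x) (hc : IsCtb E N) (h : Elem E N H) : IsElem E θ N := by
  refine ⟨hc, fun x hx => (hH x).1 (h.1 x hx), fun k φ v hv => ?_⟩
  have h1 : (fun x => InH E θ x) = fun x => E x H := funext fun x => propext (hH x).symm
  rw [h1, satC_satIn, satC_satIn]
  exact h.2 k φ v hv

section
variable (hZ : IsZFC E)
include hZ

theorem IsPo.fst {Q P le x y : M} (h : IsPo E Q P le) (hx : App E le x y) : E x P ∧ E y P := by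
  obtain ⟨p, hp, hxy⟩ := hx
  obtain ⟨x', y', hx', hy', hp'⟩ := h.2.2.1 p hp
  obtain ⟨rfl, rfl⟩ := IsPair.inj hZ hxy hp'
  exact ⟨hx', hy'⟩

/-- **Dee-complete forcing notions are totally proper**, in the form used for the model -/
theorem IsDee.tph {Q P le : M} (hQ : IsPo E Q P le) (h : IsDee E Q P le) :
    ∃ H, IsTr E H ∧ E Q H ∧ (∀ A, Sub E A P → E A H) ∧ TPH E H Q P le := by
  obtain ⟨θ₀, hθ₀, h1⟩ := h.lb hZ hQ
  obtain ⟨θ, l, v, hθ, hlt, hl, _, _, hv, hQv, hvH, _⟩ := hZ.exInH Q hθ₀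
  obtain ⟨H, hH⟩ := hθ.exH hZ
  have htr := hv.tr hZ hl.1
  have hPv : E P v := by
    obtain ⟨s, d, hs, hd, hQsd⟩ := hQ.1
    exact htr s (htr Q hQv s ((hQsd s).2 (Or.inl rfl))) P ((hs P).2 (Or.inl rfl))
  refine ⟨H, fun x hx y hy => (hH y).2 (((hH x).1 hx).tr hy), (hH Q).2 (hvH.tr hQv),
    fun A hA => (hH A).2 (hvH.tr (hv.subclosed hZ hl.1 hPv hA)), ?_⟩
  intro N hc hN hQN p hp hpN
  obtain ⟨r, hr, hD⟩ := h1 θ hθ hlt N p (hN.isElem hH hc) hQN hpN hp
  exact ⟨r, (hQ.fst hZ hr).1, hr, hD⟩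

/-- the failure of CH: `ω₂` is covered by the power set of `ω` -/
theorem notCH_of {w w1 w2 Pw : M} (hw : IsOmega E w) (h1 : IsOm1 E w1) (h2 : IsOm2 E w2) (hP : ∀ x, E x Pw ↔ Sub E x w)
    (hc : Cov E Pw w2) : NotCH E :=
  ⟨w, w1, Pw, hw, h1, hP, fun h => (h2.hart hZ h1).not_cov hZ (h.trans hZ hc)⟩

/-- **The Aronszajn tree**, from a set `T` of pairs `(α, t)`, `t ⊆ α < ω₂`. -/
theorem hasAT_of {w1 w2 T : M} (h1 : IsOm1 E w1) (h2 : IsOm2 E w2)
    (hT : ∀ p, E p T → ∃ α t, IsPair E p α t ∧ E α w2 ∧ Sub E t α)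
    (hres : ∀ p α t β s q, E p T → IsPair E p α t → E β α → (∀ ξ, E ξ s ↔ E ξ t ∧ E ξ β) → IsPair E q β s → E q T)
    (hne : ∀ α, E α w2 → ∃ p t, E p T ∧ IsPair E p α t)
    (hlev : ∀ α L, E α w2 → (∀ p, E p L ↔ E p T ∧ ∃ t, IsPair E p α t) → Cov E w1 L)
    (hbr : ¬ ∃ B, ∀ α, E α w2 → ∃ p t, E p T ∧ IsPair E p α t ∧ ∀ ξ, E ξ t ↔ E ξ B ∧ E ξ α) : HasAT E := by
  obtain ⟨w, hw⟩ := hZ.exOmega
  have hH1 := h1.hart hZ hw
  have hH2 := h2.hart hZ h1
  have hww1 : E w w1 := hH1.omega_mem hZ hw fun _ h => h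
  have hwsub : Sub E w w1 := fun x hx => hH1.1.trans hww1 hx
  obtain ⟨h, hh, hhapp⟩ := hZ.exFun (R := fun p α => ∃ t, IsPair E p α t) (by (repeat' (first | assumption | (apply DefFun.comp; assumption) | apply IsLim.df | apply Cov.df | apply IsHart.df | apply IsRegC.df | apply InH.df | apply Instr.df | apply IsNum.df | apply IsEval.df | apply IsAsg.df | apply IsProg.df | apply IsStr.df | apply IsTyp.df | apply IsCard.df | apply HasRank.df | apply IsV.df | apply IsVseq.df | apply Maps.df | apply IsFun.df | apply App.df | apply IsOmega.df | apply IsNat.df | apply IsZS.df | apply IsOrd.df | apply IsTr.df | apply IsSucc.df | apply IsPair.df | apply IsUPair.df | apply IsEmp.df | apply Sub.df | exact DefFun.var _ | exact DefFun.const _ | apply Def.eq | apply Def.mem | apply Def.not | apply Def.and | apply Def.or | apply Def.iff | apply Def.imp | apply Def.exU | apply Def.ex | apply Def.all))) T (fun p hp => by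
    obtain ⟨α, t, h3, _, _⟩ := hT p hp
    refine ⟨α, ⟨t, h3⟩, ?_⟩
    rintro β ⟨s, h4⟩
    exact (IsPair.inj hZ h3 h4).1.symm)
  obtain ⟨TT, hTT⟩ := hZ.exProd T T
  obtain ⟨R, hR⟩ := hZ.sep1 (P := fun z => ∃ p q α t β s, E p T ∧ E q T ∧ IsPair E z p q ∧ IsPair E p α t ∧ IsPair E q β s ∧
    E α β ∧ ∀ ξ, E ξ t ↔ E ξ s ∧ E ξ α) (by (repeat' (first | assumption | (apply DefFun.comp; assumption) | apply IsLim.df | apply Cov.df | apply IsHart.df | apply IsRegC.df | apply InH.df | apply Instr.df | apply IsNum.df | apply IsEval.df | apply IsAsg.df | apply IsProg.df | apply IsStr.df | apply IsTyp.df | apply IsCard.df | apply HasRank.df | apply IsV.df | apply IsVseq.df | apply Maps.df | apply IsFun.df | apply App.df | apply IsOmega.df | apply IsNat.df | apply IsZS.df | apply IsOrd.df | apply IsTr.df | apply IsSucc.df | apply IsPair.df | apply IsUPair.df | apply IsEmp.df | apply Sub.df | exact DefFun.var _ | exact DefFun.const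 _ | apply Def.eq | apply Def.mem | apply Def.not | apply Def.and | apply Def.or | apply Def.iff | apply Def.imp | apply Def.exU | apply Def.ex | apply Def.all))) TT
  have hRapp : ∀ p q, App E R p q ↔ E p T ∧ E q T ∧ ∃ α t β s, IsPair E p α t ∧ IsPair E q β s ∧ E α β ∧
      ∀ ξ, E ξ t ↔ E ξ s ∧ E ξ α := by
    intro p q
    constructor
    · rintro ⟨z, hz, hpq⟩
      obtain ⟨_, p', q', α, t, β, s, hp, hq, hpq', h3, h4, h5, h6⟩ := (hR z).1 hz
      obtain ⟨rfl, rfl⟩ := IsPair.inj hZ hpq hpq'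
      exact ⟨hp, hq, α, t, β, s, h3, h4, h5, h6⟩
    · rintro ⟨hp, hq, α, t, β, s, h3, h4, h5, h6⟩
      obtain ⟨z, hz⟩ := hZ.exPair p q
      exact ⟨z, (hR z).2 ⟨(hTT z).2 ⟨p, q, hp, hq, hz⟩, p, q, α, t, β, s, hp, hq, hz, h3, h4, h5, h6⟩, hz⟩
  have hhap : ∀ p α, App E h p α ↔ E p T ∧ ∃ t, IsPair E p α t := fun p α =>
    ⟨fun h3 => ⟨hh.dom hZ h3, (hhapp p (hh.dom hZ h3) α).1 h3⟩, fun h3 => (hhapp p h3.1 α).2 h3.2⟩
  refine ⟨T, R, h, w1, w2, h1, h2, ⟨hh, fun p α hp => ?_⟩, ?_, ?_, ?_, ?_, ?_, ?_, ?_⟩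
  · obtain ⟨hpT, t, ht⟩ := (hhap p α).1 hp
    obtain ⟨α', t', h3, h4, _⟩ := hT p hpT
    obtain ⟨rfl, _⟩ := IsPair.inj hZ ht h3
    exact h4
  · intro p q hpq
    exact ⟨((hRapp p q).1 hpq).1, ((hRapp p q).1 hpq).2.1⟩
  · intro p hp
    obtain ⟨_, _, α, t, β, s, h3, h4, h5, _⟩ := (hRapp p p).1 hp
    obtain ⟨rfl, _⟩ := IsPair.inj hZ h3 h4
    exact hZ.irrefl _ h5
  · intro p q r hpq hqr
    obtain ⟨hp, hq, α, t, β, s, h3, h4, h5, h6⟩ := (hRapp p q).1 hpq
    obtain ⟨_, hr, β', s', γ, u, h3', h4', h5', h6'⟩ := (hRapp q r).1 hqr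
    obtain ⟨rfl, rfl⟩ := IsPair.inj hZ h4 h3'
    obtain ⟨γ', _, hγ1, hγ2, _⟩ := hT r hr
    obtain ⟨rfl, _⟩ := IsPair.inj hZ h4' hγ1
    have hγo := hH2.1.mem hγ2
    refine (hRapp p r).2 ⟨hp, hr, α, t, γ, u, h3, h4', hγo.trans h5' h5, fun ξ => ?_⟩
    rw [h6, h6']
    have hβo := hγo.mem h5'
    constructor
    · rintro ⟨⟨h7, _⟩, h8⟩
      exact ⟨h7, h8⟩
    · rintro ⟨h7, h8⟩
      exact ⟨⟨h7, hβo.trans h5 h8⟩, h8⟩
  · intro x α hx
    obtain ⟨hxT, t, ht⟩ := (hhap x α).1 hx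
    obtain ⟨α', t', h3, hα, htα⟩ := hT x hxT
    obtain ⟨rfl, rfl⟩ := IsPair.inj hZ ht h3
    have hαo := hH2.1.mem hα
    refine ⟨?_, ?_, ?_⟩
    · intro y β hyx hyβ
      obtain ⟨_, _, β', s, α', t', h4, h5, h6, _⟩ := (hRapp y x).1 hyx
      obtain ⟨rfl, _⟩ := IsPair.inj hZ ht h5
      obtain ⟨_, s', h7⟩ := (hhap y β).1 hyβ
      obtain ⟨rfl, _⟩ := IsPair.inj hZ h4 h7
      exact h6
    · intro β hβ
      obtain ⟨s, hs⟩ := hZ.sep1 (P := fun ξ => E ξ β) (by (repeat' (first | assumption | (apply DefFun.comp; assumption) | apply IsLim.df | apply Cov.df | apply IsHart.df | apply IsRegC.df | apply InH.df | apply Instr.df | apply IsNum.df | apply IsEval.df | apply IsAsg.df | apply IsProg.df | apply IsStr.df | apply IsTyp.df | apply IsCard.df | apply HasRank.df | apply IsV.df | apply IsVseq.df | apply Maps.df | apply IsFun.df | apply App.df | apply IsOmega.df | apply IsNat.df | apply IsZS.df | apply IsOrd.df | apply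 IsTr.df | apply IsSucc.df | apply IsPair.df | apply IsUPair.df | apply IsEmp.df | apply Sub.df | exact DefFun.var _ | exact DefFun.const _ | apply Def.eq | apply Def.mem | apply Def.not | apply Def.and | apply Def.or | apply Def.iff | apply Def.imp | apply Def.exU | apply Def.ex | apply Def.all))) t
      obtain ⟨q, hq⟩ := hZ.exPair β s
      have hqT := hres x α t β s q hxT ht hβ hs hq
      exact ⟨q, (hRapp q x).2 ⟨hqT, hxT, β, s, α, t, hq, ht, hβ, hs⟩, (hhap q β).2 ⟨hqT, s, hq⟩⟩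
    · intro y y' β β' hyx hyx' hyβ hyβ'
      obtain ⟨hyT, _, b, s, a, t', h4, h5, h6, h7⟩ := (hRapp y x).1 hyx
      obtain ⟨rfl, rfl⟩ := IsPair.inj hZ ht h5
      obtain ⟨hyT', _, b', s', a', t'', h4', h5', h6', h7'⟩ := (hRapp y' x).1 hyx'
      obtain ⟨rfl, rfl⟩ := IsPair.inj hZ ht h5'
      obtain ⟨_, _, h8⟩ := (hhap y β).1 hyβ
      obtain ⟨rfl, rfl⟩ := IsPair.inj hZ h4 h8
      obtain ⟨_, _, h8'⟩ := (hhap y' β').1 hyβ'
      obtain ⟨rfl, rfl⟩ := IsPair.inj hZ h4' h8'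
      constructor
      · constructor
        · intro hyy
          obtain ⟨_, _, c, u, c', u', h9, h10, h11, _⟩ := (hRapp y y').1 hyy
          obtain ⟨rfl, _⟩ := IsPair.inj hZ h4 h9
          obtain ⟨rfl, _⟩ := IsPair.inj hZ h4' h10
          exact h11
        · intro hbb
          refine (hRapp y y').2 ⟨hyT, hyT', b, s, b', s', h4, h4', hbb, fun ξ => ?_⟩
          rw [h7, h7']
          have hbo := hαo.mem h6'
          constructor
          · rintro ⟨h9, h10⟩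
            exact ⟨⟨h9, hbo.trans hbb h10⟩, h10⟩
          · rintro ⟨⟨h9, _⟩, h10⟩
            exact ⟨h9, h10⟩
      · constructor
        · rintro rfl
          exact (IsPair.inj hZ h4 h4').1
        · rintro rfl
          have hss : s = s' := hZ.ext _ _ fun ξ => by rw [h7, h7']
          subst hss
          exact h4.uniq hZ h4'
  · intro α hα
    obtain ⟨p, t, hp, hpt⟩ := hne α hα
    exact ⟨p, (hhap p α).2 ⟨hp, t, hpt⟩⟩
  · intro α L hα hL
    exact hlev α L hα fun p => (hL p).trans (hhap p α)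
  · intro b hbT hb
    refine tree_chain hZ hH2 hw hwsub hT hres hbr hbT ?_
    intro p q α t β s hp hq hpt hqs
    rcases hb p q hp hq with h3 | h3 | h3
    · exact Or.inl h3
    · obtain ⟨_, _, a, u, c, u', h4, h5, h6, h7⟩ := (hRapp p q).1 h3
      obtain ⟨rfl, rfl⟩ := IsPair.inj hZ hpt h4
      obtain ⟨rfl, rfl⟩ := IsPair.inj hZ hqs h5
      exact Or.inr (Or.inl ⟨h6, h7⟩)
    · obtain ⟨_, _, a, u, c, u', h4, h5, h6, h7⟩ := (hRapp q p).1 h3
      obtain ⟨rfl, rfl⟩ := IsPair.inj hZ hqs h4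
      obtain ⟨rfl, rfl⟩ := IsPair.inj hZ hpt h5
      exact Or.inr (Or.inr ⟨h6, h7⟩)

end

end DCM
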