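import Pool.Agent.W_MP_315f31_lc.C.AT
import Pool.Agent.BVM_h40.Ord
import Pool.Agent.W_315f31_h40.CoreD

set_option autoImplicit false

/-!
# MP_315f31_lc : the Aronszajn tree in the quotients of the Boolean-valued model
-/

universe u v

namespace BVM

open IM.BSet HESR DCM Set Cardinal
open IM (BSet)
open Pool.Agent.W_MP_315f31_lc (CoreD)

variable {D : Type u} [CompleteBooleanAlgebra D] {lam : D → Prop} {hl : IsUF lam}

/-- Case distinction along a supremum. -/
theorem sup_case {P : ∀ (lam : D → Prop), IsUF lam → Prop} (h : TD0 P) {ι : Type*} {c : ι → D} {a : D}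
    (ha : a ≤ ⨆ i, c i) (h1 : ∀ (i : ι) (lam : D → Prop) (hl : IsUF lam), lam a → lam (c i) → P lam hl)
    {lam : D → Prop} {hl : IsUF lam} (hlam : lam a) : P lam hl := by
  rw [TD.b0_iff h]
  refine hl.mono ?_ hlam
  have h2 : a = ⨆ i, a ⊓ c i := by
    rw [← inf_iSup_eq]
    exact (inf_eq_left.2 ha).symm
  rw [h2]
  refine iSup_le fun i => ?_
  rw [TD.le_b0]
  intro lam hl hlam
  obtain ⟨h3, h4⟩ := hl.inf_iff.1 hlam
  exact h1 i lam hl h3 h4

theorem TD.cov {k : ℕ} {f g : ∀ (lam : D → Prop) (hl : IsUF lam), (Fin k → X hl) → X hl} (hf : Tm f) (hg : Tm g) :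
    TD fun lam hl v => Cov (E hl) (f lam hl v) (g lam hl v) :=
  TD.fo2 (R := fun _ E a b => Cov E a b) (Cov.fo 0 1) hf hg

section tree
variable {K : Type u} [LinearOrder K] [WellFoundedLT K]

/-- A subset of `K` of smaller size is the image of an initial segment. -/
theorem exists_surj {Z : Set K} (hZ : #Z < #K) : ∃ (δ : K) (e : Iio δ → Option Z), ∀ z, ∃ i, e i = some z := by
  classical
  have h1 : (#Z).ord < Ordinal.type (fun x y : K => x < y) := by
    rw [← not_le]
    intro h
    have h2 := Ordinal.card_le_card h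
    rw [Cardinal.card_ord, Ordinal.card_type] at h2
    exact absurd hZ (not_lt.2 h2)
  let δ : K := Ordinal.enum (fun x y : K => x < y) ⟨(#Z).ord, h1⟩
  have h2 : #{y // y < δ} = #Z := by
    have h3 := Ordinal.card_typein (r := fun x y : K => x < y) δ
    rw [← h3, Ordinal.typein_enum, Cardinal.card_ord]
  obtain ⟨e⟩ := Cardinal.eq.1 h2
  exact ⟨δ, fun i => some (e ⟨i.1, i.2⟩), fun z => ⟨⟨(e.symm z).1, (e.symm z).2⟩, congrArg some (e.apply_symm_apply z)⟩⟩

/-- The name of the node `nd α z`. -/
noncomputable def tN (nd : K → K → K → D) (α z : K) : BSet D :=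
  mk (Iio α) (fun ξ => chk ξ.1) (fun ξ => nd α z ξ)

/-- The name of the tree. -/
noncomputable def trN (nd : K → K → K → D) (vl : K → K → D) : BSet D :=
  mk (K × K) (fun i => prB (chk i.1) (tN nd i.1 i.2)) (fun i => vl i.1 i.2)

theorem E_tN {nd : K → K → K → D} {α z ξ : K} (hξ : ξ < α) :
    E hl (val hl (chk ξ)) (val hl (tN nd α z)) ↔ lam (nd α z ξ) := by
  unfold tN
  rw [E_mk_iff]
  have h : (⨆ i : Iio α, nd α z i ⊓ beq (chk ξ) (chk i.1)) = nd α z ξ := by
    apply le_antisymm
    · refine iSup_le fun i => ?_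
      by_cases hi : ξ = i.1
      · rw [← hi]
        exact inf_le_left
      · rw [beq_chk_ne hi]
        simp
    · refine le_iSup_of_le ⟨ξ, hξ⟩ ?_
      rw [beq_refl]
      simp
  rw [h]

theorem sub_tN {nd : K → K → K → D} {α z : K} : Sub (E hl) (val hl (tN nd α z)) (val hl (chk α)) := by
  refine forall_mk (P := fun lam hl x => E hl x (val hl (chk α))) (by (repeat' (first | exact Tm.var _ | exact Tm.const _ | exact TD.tt | exact TD.ff | exact TD.lamC _ | apply TD.isUPair | apply TD.isPair | apply TD.isFun | apply TD.cov | apply TD.app | apply TD.sub | apply TD.isEmp | apply TD.isSucc | apply TD.isTr | apply TD.isOrd | apply TD.isOmega | apply TD.maps | apply TD.mem | apply TD.eq | apply TD.not | apply TD.and | apply TD.or | apply TD.imp | apply TD.iff | apply TD.ex | apply TD.all))) (a := ⊤) ?_ hl.top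
  intro i lam hl _ _
  exact E_chk_of i.2

theorem lam_equiv {u v : D} : lam ((u ⊓ v) ⊔ (uᶜ ⊓ vᶜ)) → IsUF lam → (lam u ↔ lam v) := by
  intro h hl
  rw [hl.sup_iff, hl.inf_iff, hl.inf_iff, hl.compl_iff, hl.compl_iff] at h
  tauto

/-- Two nodes with the same truth values. -/
theorem restr_tN {nd : K → K → K → D} {α β z z' : K} (hβ : β ≤ α)
    (h : lam (⨅ ξ : Iio β, (nd α z ξ ⊓ nd β z' ξ) ⊔ ((nd α z ξ)ᶜ ⊓ (nd β z' ξ)ᶜ))) (x : X hl) :
    E hl x (val hl (tN nd β z')) ↔ E hl x (val hl (tN nd α z)) ∧ E hl x (val hl (chk β)) := by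
  constructor
  · intro hx
    refine ⟨?_, sub_tN x hx⟩
    revert x
    refine forall_mk (P := fun lam hl x => E hl x (val hl (tN nd α z))) (by (repeat' (first | exact Tm.var _ | exact Tm.const _ | exact TD.tt | exact TD.ff | exact TD.lamC _ | apply TD.isUPair | apply TD.isPair | apply TD.isFun | apply TD.cov | apply TD.app | apply TD.sub | apply TD.isEmp | apply TD.isSucc | apply TD.isTr | apply TD.isOrd | apply TD.isOmega | apply TD.maps | apply TD.mem | apply TD.eq | apply TD.not | apply TD.and | apply TD.or | apply TD.imp | apply TD.iff | apply TD.ex | apply TD.all))) ?_ h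
    intro i lam hl ha hi
    have h1 := lam_equiv (hl.mono (iInf_le _ i) ha) hl
    exact (E_tN (lt_of_lt_of_le i.2 hβ)).2 (h1.2 hi)
  · rintro ⟨h1, h2⟩
    revert x
    have h3 : ∀ x, E hl x (val hl (chk β)) → E hl x (val hl (tN nd α z)) → E hl x (val hl (tN nd β z')) := by
      refine forall_chk (P := fun lam hl x => E hl x (val hl (tN nd α z)) → E hl x (val hl (tN nd β z')))
        (by (repeat' (first | exact Tm.var _ | exact Tm.const _ | exact TD.tt | exact TD.ff | exact TD.lamC _ | apply TD.isUPair | apply TD.isPair | apply TD.isFun | apply TD.cov | apply TD.app | apply TD.sub | apply TD.isEmp | apply TD.isSucc | apply TD.isTr | apply TD.isOrd | apply TD.isOmega | apply TD.maps | apply TD.mem | apply TD.eq | apply TD.not | apply TD.and | apply TD.or | apply TD.imp | apply TD.iff | apply TD.ex | apply TD.all))) ?_ h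
      intro ξ hξ lam hl ha hx
      have h1 := lam_equiv (hl.mono (iInf_le _ (⟨ξ, hξ⟩ : Iio β)) ha) hl
      exact (E_tN hξ).2 (h1.1 ((E_tN (lt_of_lt_of_le hξ hβ)).1 hx))
    exact fun x h1 h2 => h3 x h2 h1

/-- **The Aronszajn tree.** -/
theorem hasAT_X (h : CoreD K D) {lam : D → Prop} (hl : IsUF lam) {w1 : X hl} (h1 : IsOm1 (E hl) w1)
    (h2 : IsOm2 (E hl) (val hl (chkT K))) : HasAT (E hl) := by
  have hZ := zfc hl
  obtain ⟨nd, vl, hres, hsm, hne, hbr⟩ := h.tree
  refine hasAT_of hZ (T := val hl (trN nd vl)) h1 h2 ?_ ?_ ?_ ?_ ?_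
  · -- pairs
    refine forall_mk (P := fun lam hl p => ∃ α t, IsPair (E hl) p α t ∧ E hl α (val hl (chkT K)) ∧ Sub (E hl) t α)
      (by (repeat' (first | exact Tm.var _ | exact Tm.const _ | exact TD.tt | exact TD.ff | exact TD.lamC _ | apply TD.isUPair | apply TD.isPair | apply TD.isFun | apply TD.cov | apply TD.app | apply TD.sub | apply TD.isEmp | apply TD.isSucc | apply TD.isTr | apply TD.isOrd | apply TD.isOmega | apply TD.maps | apply TD.mem | apply TD.eq | apply TD.not | apply TD.and | apply TD.or | apply TD.imp | apply TD.iff | apply TD.ex | apply TD.all))) (a := ⊤) ?_ hl.top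
    intro i lam hl _ _
    exact ⟨_, _, isPair_prB _ _, E_chkT i.1, sub_tN⟩
  · -- restrictions
    have key : ∀ p, E hl p (val hl (trN nd vl)) → ∀ α t β s q, IsPair (E hl) p α t → E hl β α →
        (∀ ξ, E hl ξ s ↔ E hl ξ t ∧ E hl ξ β) → IsPair (E hl) q β s → E hl q (val hl (trN nd vl)) := by
      refine forall_mk (P := fun lam hl p => ∀ α t β s q, IsPair (E hl) p α t → E hl β α →
        (∀ ξ, E hl ξ s ↔ E hl ξ t ∧ E hl ξ β) → IsPair (E hl) q β s → E hl q (val hl (trN nd vl)))
        (by (repeat' (first | exact Tm.var _ | exact Tm.const _ | exact TD.tt | exact TD.ff | exact TD.lamC _ | apply TD.isUPair | apply TD.isPair | apply TD.isFun | apply TD.cov | apply TD.app | apply TD.sub | apply TD.isEmp | apply TD.isSucc | apply TD.isTr | apply TD.isOrd | apply TD.isOmega | apply TD.maps | apply TD.mem | apply TD.eq | apply TD.not | apply TD.and | apply TD.or | apply TD.imp | apply TD.iff | apply TD.ex | apply TD.all))) (a := ⊤) ?_ hl.top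
      intro i lam hl _ hi α t β s q hp hβ hs hq
      obtain ⟨rfl, rfl⟩ := IsPair.inj (zfc hl) hp (isPair_prB _ _)
      have key2 : ∀ β, E hl β (val hl (chk i.1)) → ∀ s q, (∀ ξ, E hl ξ s ↔ E hl ξ (val hl (tN nd i.1 i.2)) ∧ E hl ξ β) →
          IsPair (E hl) q β s → E hl q (val hl (trN nd vl)) := by
        refine forall_chk (P := fun lam hl β => ∀ s q, (∀ ξ, E hl ξ s ↔ E hl ξ (val hl (tN nd i.1 i.2)) ∧ E hl ξ β) →
          IsPair (E hl) q β s → E hl q (val hl (trN nd vl))) (by (repeat' (first | exact Tm.var _ | exact Tm.const _ | exact TD.tt | exact TD.ff | exact TD.lamC _ | apply TD.isUPair | apply TD.isPair | apply TD.isFun | apply TD.cov | apply TD.app | apply TD.sub | apply TD.isEmp | apply TD.isSucc | apply TD.isTr | apply TD.isOrd | apply TD.isOmega | apply TD.maps | apply TD.mem | apply TD.eq | apply TD.not | apply TD.and | apply TD.or | apply TD.imp | apply TD.iff | apply TD.ex | apply TD.all))) ?_ hi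
        intro b hb lam hl hi
        refine sup_case (P := fun lam hl => ∀ s q, (∀ ξ, E hl ξ s ↔ E hl ξ (val hl (tN nd i.1 i.2)) ∧ E hl ξ (val hl (chk b))) →
          IsPair (E hl) q (val hl (chk b)) s → E hl q (val hl (trN nd vl))) (by (repeat' (first | exact Tm.var _ | exact Tm.const _ | exact TD.tt | exact TD.ff | exact TD.lamC _ | apply TD.isUPair | apply TD.isPair | apply TD.isFun | apply TD.cov | apply TD.app | apply TD.sub | apply TD.isEmp | apply TD.isSucc | apply TD.isTr | apply TD.isOrd | apply TD.isOmega | apply TD.maps | apply TD.mem | apply TD.eq | apply TD.not | apply TD.and | apply TD.or | apply TD.imp | apply TD.iff | apply TD.ex | apply TD.all))) (hres i.1 b hb.le i.2) ?_ hi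
        intro z' lam hl _ hz s q hs hq
        obtain ⟨hz1, hz2⟩ := hl.inf_iff.1 hz
        have hst : s = val hl (tN nd b z') := (zfc hl).ext _ _ fun ξ => (hs ξ).trans (restr_tN hb.le hz2 ξ).symm
        rw [hst] at hq
        rw [eq_prB hq]
        exact E_mk_of (f := fun i : K × K => prB (chk i.1) (tN nd i.1 i.2)) (w := fun i => vl i.1 i.2) (b, z') hz1
      exact key2 β hβ s q hs hq
    exact fun p α t β s q hp h3 h4 h5 h6 => key p hp α t β s q h3 h4 h5 h6
  · -- the levels are not empty
    refine forall_chkT (P := fun lam hl α => ∃ p t, E hl p (val hl (trN nd vl)) ∧ IsPair (E hl) p α t)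
      (by (repeat' (first | exact Tm.var _ | exact Tm.const _ | exact TD.tt | exact TD.ff | exact TD.lamC _ | apply TD.isUPair | apply TD.isPair | apply TD.isFun | apply TD.cov | apply TD.app | apply TD.sub | apply TD.isEmp | apply TD.isSucc | apply TD.isTr | apply TD.isOrd | apply TD.isOmega | apply TD.maps | apply TD.mem | apply TD.eq | apply TD.not | apply TD.and | apply TD.or | apply TD.imp | apply TD.iff | apply TD.ex | apply TD.all))) (a := ⊤) ?_ hl.top
    intro α lam hl _
    refine sup_case (P := fun lam hl => ∃ p t, E hl p (val hl (trN nd vl)) ∧ IsPair (E hl) p (val hl (chk α)) t)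
      (by (repeat' (first | exact Tm.var _ | exact Tm.const _ | exact TD.tt | exact TD.ff | exact TD.lamC _ | apply TD.isUPair | apply TD.isPair | apply TD.isFun | apply TD.cov | apply TD.app | apply TD.sub | apply TD.isEmp | apply TD.isSucc | apply TD.isTr | apply TD.isOrd | apply TD.isOmega | apply TD.maps | apply TD.mem | apply TD.eq | apply TD.not | apply TD.and | apply TD.or | apply TD.imp | apply TD.iff | apply TD.ex | apply TD.all))) (hne α).ge ?_ hl.top
    intro z lam hl _ hz
    exact ⟨_, _, E_mk_of (f := fun i : K × K => prB (chk i.1) (tN nd i.1 i.2)) (w := fun i => vl i.1 i.2) (α, z) hz,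
      isPair_prB _ _⟩
  · -- the levels are small
    have hH2 := h2.hart hZ h1
    have key : ∀ α, E hl α (val hl (chkT K)) → ∀ L, (∀ p, E hl p L ↔ E hl p (val hl (trN nd vl)) ∧ ∃ t, IsPair (E hl) p α t) →
        ∃ δ, E hl δ (val hl (chkT K)) ∧ Cov (E hl) δ L := by
      refine forall_chkT (P := fun lam hl α => ∀ L, (∀ p, E hl p L ↔ E hl p (val hl (trN nd vl)) ∧ ∃ t, IsPair (E hl) p α t) →
        ∃ δ, E hl δ (val hl (chkT K)) ∧ Cov (E hl) δ L) (by (repeat' (first | exact Tm.var _ | exact Tm.const _ | exact TD.tt | exact TD.ff | exact TD.lamC _ | apply TD.isUPair | apply TD.isPair | apply TD.isFun | apply TD.cov | apply TD.app | apply TD.sub | apply TD.isEmp | apply TD.isSucc | apply TD.isTr | apply TD.isOrd | apply TD.isOmega | apply TD.maps | apply TD.mem | apply TD.eq | apply TD.not | apply TD.and | apply TD.or | apply TD.imp | apply TD.iff | apply TD.ex | apply TD.all))) (a := ⊤) ?_ hl.top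
      intro α lam hl _ L hL
      obtain ⟨Z, hZs, hZ'⟩ := hsm α
      obtain ⟨δ, e, he⟩ := exists_surj hZs
      refine ⟨val hl (chk δ), E_chkT δ, ?_⟩
      have hc : Cov (E hl) (val hl (chk δ)) (val hl (nm fun z : Z => prB (chk α) (tN nd α z.1))) := by
        rw [chk_eq δ]
        exact cov_surj (j := fun v : Iio δ => (chk v.1 : BSet D)) (fun i i' hii => beq_chk_ne fun h' => hii (Subtype.ext h'))
          e he hl
      refine hc.mono fun p hp => ?_
      obtain ⟨hpT, hpt⟩ := (hL p).1 hp
      have key2 : ∀ p, E hl p (val hl (trN nd vl)) → (∃ t, IsPair (E hl) p (val hl (chk α)) t) →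
          E hl p (val hl (nm fun z : Z => prB (chk α) (tN nd α z.1))) := by
        refine forall_mk (P := fun lam hl p => (∃ t, IsPair (E hl) p (val hl (chk α)) t) →
          E hl p (val hl (nm fun z : Z => prB (chk α) (tN nd α z.1)))) (by (repeat' (first | exact Tm.var _ | exact Tm.const _ | exact TD.tt | exact TD.ff | exact TD.lamC _ | apply TD.isUPair | apply TD.isPair | apply TD.isFun | apply TD.cov | apply TD.app | apply TD.sub | apply TD.isEmp | apply TD.isSucc | apply TD.isTr | apply TD.isOrd | apply TD.isOmega | apply TD.maps | apply TD.mem | apply TD.eq | apply TD.not | apply TD.and | apply TD.or | apply TD.imp | apply TD.iff | apply TD.ex | apply TD.all))) (a := ⊤) ?_ hl.top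
        rintro ⟨α1, z⟩ lam hl _ _ ⟨t, ht⟩
        obtain ⟨h3, _⟩ := IsPair.inj (zfc hl) ht (isPair_prB _ _)
        obtain rfl := val_chk_inj.1 h3
        obtain ⟨z', hz', _, hnd⟩ := hZ' z
        have h4 : (tN nd α z : BSet D) = tN nd α z' := by
          unfold tN
          congr 1
          funext ξ
          exact hnd ξ.1 ξ.2
        show E hl (val hl (prB (chk α) (tN nd α z))) _
        rw [h4]
        exact E_nm_of (f := fun z : Z => prB (chk α) (tN nd α z.1)) ⟨z', hz'⟩
      exact key2 p hpT hpt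
    intro α L hα hL
    obtain ⟨δ, hδ, hc⟩ := key α hα L hL
    exact (hH2.cov hZ hδ).trans hZ hc
  · -- no branch
    rintro ⟨B, hB⟩
    obtain ⟨B, rfl⟩ := exists_name B
    have hT : TD0 (D := D) fun lam hl => ∀ α, E hl α (val hl (chkT K)) → ∃ p, E hl p (val hl (trN nd vl)) ∧
        ∃ t, IsPair (E hl) p α t ∧ ∀ ξ, E hl ξ t ↔ E hl ξ (val hl B) ∧ E hl ξ α := by (repeat' (first | exact Tm.var _ | exact Tm.const _ | exact TD.tt | exact TD.ff | exact TD.lamC _ | apply TD.isUPair | apply TD.isPair | apply TD.isFun | apply TD.cov | apply TD.app | apply TD.sub | apply TD.isEmp | apply TD.isSucc | apply TD.isTr | apply TD.isOrd | apply TD.isOmega | apply TD.maps | apply TD.mem | apply TD.eq | apply TD.not | apply TD.and | apply TD.or | apply TD.imp | apply TD.iff | apply TD.ex | apply TD.all))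
    have hQ : ∀ α : K, TD1 (D := D) fun lam hl p => ∃ t, IsPair (E hl) p (val hl (chk α)) t ∧
        ∀ ξ, E hl ξ t ↔ E hl ξ (val hl B) ∧ E hl ξ (val hl (chk α)) := by
      intro α
      (repeat' (first | exact Tm.var _ | exact Tm.const _ | exact TD.tt | exact TD.ff | exact TD.lamC _ | apply TD.isUPair | apply TD.isPair | apply TD.isFun | apply TD.cov | apply TD.app | apply TD.sub | apply TD.isEmp | apply TD.isSucc | apply TD.isTr | apply TD.isOrd | apply TD.isOmega | apply TD.maps | apply TD.mem | apply TD.eq | apply TD.not | apply TD.and | apply TD.or | apply TD.imp | apply TD.iff | apply TD.ex | apply TD.all))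
    have hc : lam (TD.b0 hT) := by
      refine (TD.b0_iff hT (hl := hl)).1 ?_
      intro α hα
      obtain ⟨p, t, hp, hpt, ht⟩ := hB α hα
      exact ⟨p, hp, t, hpt, ht⟩
    have hle : TD.b0 hT ≤ ⨅ α, ⨆ z, vl α z ⊓ ⨅ ξ : Iio α, (bmem (chk ξ.1) B ⊓ nd α z ξ) ⊔ ((bmem (chk ξ.1) B)ᶜ ⊓ (nd α z ξ)ᶜ) := by
      refine le_iInf fun α => ?_
      rw [le_iff_ultra]
      intro lam hl hlam
      have h3 := (TD.b0_iff hT).2 hlam (val hl (chk α)) (E_chkT α)
      have h4 := (exists_mk_iff (hQ α)).1 h3
      refine hl.mono (iSup_le ?_) h4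
      rintro ⟨α1, z⟩
      by_cases hα : α1 = α
      · subst hα
        refine le_iSup_of_le z (inf_le_inf_left _ (le_iInf fun ξ => ?_))
        rw [le_iff_ultra]
        intro lam hl hlam
        obtain ⟨t, ht, hξ⟩ := (TD.b1_iff (hQ α1)).2 hlam
        obtain ⟨_, rfl⟩ := IsPair.inj (zfc hl) ht (isPair_prB _ _)
        have h5 := hξ (val hl (chk ξ.1))
        rw [E_tN ξ.2, E_val] at h5
        have h6 : E hl (val hl (chk ξ.1)) (val hl (chk α1)) := E_chk_of ξ.2
        rw [hl.sup_iff, hl.inf_iff, hl.inf_iff, hl.compl_iff, hl.compl_iff]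
        tauto
      · have h5 : vl α1 z ⊓ TD.b1 (hQ α) (prB (chk α1) (tN nd α1 z)) = ⊥ := by
          rw [eq_bot_iff_ultra]
          intro lam hl hlam
          obtain ⟨t, ht, _⟩ := (TD.b1_iff (hQ α)).2 (hl.inf_iff.1 hlam).2
          obtain ⟨h6, _⟩ := IsPair.inj (zfc hl) ht (isPair_prB _ _)
          exact hα (val_chk_inj.1 h6).symm
        refine le_of_eq_of_le ?_ bot_le
        exact h5
    rw [hbr fun ξ => bmem (chk ξ) B] at hle
    exact hl.bot (hl.mono hle hc)

/-- The name of a real. -/
noncomputable def rlN (x : K → ℕ → D) (δ : K) : BSet D := mk (ULift.{u} ℕ) (fun n => natB n.down) fun n => x δ n.down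

theorem E_rlN {x : K → ℕ → D} {δ : K} {n : ℕ} : E hl (val hl (natB n)) (val hl (rlN x δ)) ↔ lam (x δ n) := by
  unfold rlN
  rw [E_mk_iff]
  have h : (⨆ i : ULift.{u} ℕ, x δ i.down ⊓ beq (natB n) (natB i.down)) = x δ n := by
    apply le_antisymm
    · refine iSup_le fun i => ?_
      by_cases hi : n = i.down
      · rw [← hi]
        exact inf_le_left
      · rw [beq_natB_ne hi]
        simp
    · refine le_iSup_of_le ⟨n⟩ ?_
      rw [beq_refl]
      simp
  rw [h]

/-- **CH fails.** -/
theorem notCH_X (h : CoreD K D) {lam : D → Prop} (hl : IsUF lam) {w1 : X hl} (h1 : IsOm1 (E hl) w1)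
    (h2 : IsOm2 (E hl) (val hl (chkT K))) : NotCH (E hl) := by
  have hZ := zfc hl
  obtain ⟨x, hx⟩ := h.reals
  obtain ⟨Pw, hPw⟩ := hZ.exPow (val hl omB)
  refine notCH_of hZ isOmega_omB h1 h2 hPw ?_
  have hne : ∀ δ δ', δ ≠ δ' → beq (rlN x δ) (rlN x δ') = ⊥ := by
    intro δ δ' hδ
    rw [← inf_top_eq (beq (rlN x δ) (rlN x δ')), ← hx δ δ' hδ, inf_iSup_eq, iSup_eq_bot]
    intro n
    rw [eq_bot_iff_ultra]
    intro lam hl hlam
    obtain ⟨h3, h4⟩ := hl.inf_iff.1 hlam
    have h5 := E_rlN (hl := hl) (x := x) (δ := δ) (n := n)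
    rw [val_eq.2 h3, E_rlN] at h5
    rw [hl.sup_iff, hl.inf_iff, hl.inf_iff, hl.compl_iff, hl.compl_iff] at h4
    tauto
  have hc : Cov (E hl) (val hl (nm (rlN x))) (val hl (chkT K)) :=
    cov_surj hne (fun δ => some δ) (fun δ => ⟨δ, rfl⟩) hl
  refine hc.dom_mono hZ ?_
  refine forall_nm (P := fun lam hl r => ∀ Pw, (∀ x, E hl x Pw ↔ Sub (E hl) x (val hl omB)) → E hl r Pw) (by (repeat' (first | exact Tm.var _ | exact Tm.const _ | exact TD.tt | exact TD.ff | exact TD.lamC _ | apply TD.isUPair | apply TD.isPair | apply TD.isFun | apply TD.cov | apply TD.app | apply TD.sub | apply TD.isEmp | apply TD.isSucc | apply TD.isTr | apply TD.isOrd | apply TD.isOmega | apply TD.maps | apply TD.mem | apply TD.eq | apply TD.not | apply TD.and | apply TD.or | apply TD.imp | apply TD.iff | apply TD.ex | apply TD.all)))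
    (a := ⊤) ?_ hl.top |> fun h3 r hr => h3 r hr Pw hPw
  intro δ lam hl _ Pw hPw
  refine (hPw _).2 ?_
  refine forall_mk (P := fun lam hl n => E hl n (val hl omB)) (by (repeat' (first | exact Tm.var _ | exact Tm.const _ | exact TD.tt | exact TD.ff | exact TD.lamC _ | apply TD.isUPair | apply TD.isPair | apply TD.isFun | apply TD.cov | apply TD.app | apply TD.sub | apply TD.isEmp | apply TD.isSucc | apply TD.isTr | apply TD.isOrd | apply TD.isOmega | apply TD.maps | apply TD.mem | apply TD.eq | apply TD.not | apply TD.and | apply TD.or | apply TD.imp | apply TD.iff | apply TD.ex | apply TD.all))) (a := ⊤) ?_ hl.top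
  intro n lam hl _ _
  exact E_omB n.down

end tree

end BVM
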