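import Pool.Agent.W_MP_315f31_lc.C.HTheta

set_option autoImplicit false

/-!
# MP_315f31_lc, part C: `ω₁`, `ω₂`, and trees of subsets, in a model of ZFC
-/

namespace HESR
universe u
variable {N : Type u} {E : N → N → Prop}

section
variable (hZ : IsZFC E)
include hZ

/-- an ordinal all of whose elements are covered by `a` but which is not covered by `a` is the
Hartogs number of `a` -/
theorem IsHart.ofMid {a κ : N} (hκ : IsOrd E κ) (h : ∀ α, E α κ → Cov E a α) (hn : ¬ Cov E a κ) : IsHart E a κ := by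
  refine ⟨hκ, fun α hα => ⟨fun h1 => h α h1, fun h1 => ?_⟩⟩
  rcases hα.tri hZ hκ with h2 | rfl | h2
  · exact h2
  · exact (hn h1).elim
  · exact (hn (h1.mono fun z hz => hα.trans h2 hz)).elim

/-- the elements of the Hartogs number are covered -/
theorem IsHart.cov {a κ α : N} (h : IsHart E a κ) (hα : E α κ) : Cov E a α := (h.2 α (h.1.mem hα)).1 hα

/-- The Aronszajn property of a family of subsets of the ordinals below `κ = a⁺`: `T` is a set of
pairs `(α, t)`, `α < κ`, `t ⊆ α`, closed under restriction, without cofinal branch.  Then every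
chain is covered by `a`. -/
theorem tree_chain {a κ T b w : N} (h : IsHart E a κ) (hw : IsOmega E w) (hwa : Sub E w a)
    (hT : ∀ p, E p T → ∃ α t, IsPair E p α t ∧ E α κ ∧ Sub E t α)
    (hres : ∀ p α t β s q, E p T → IsPair E p α t → E β α → (∀ ξ, E ξ s ↔ E ξ t ∧ E ξ β) → IsPair E q β s → E q T)
    (hbr : ¬ ∃ B, ∀ α, E α κ → ∃ p t, E p T ∧ IsPair E p α t ∧ ∀ ξ, E ξ t ↔ E ξ B ∧ E ξ α)
    (hbT : Sub E b T)
    (hb : ∀ p q α t β s, E p b → E q b → IsPair E p α t → IsPair E q β s → (p = q ∨ (E α β ∧ ∀ ξ, E ξ t ↔ E ξ s ∧ E ξ α) ∨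
      (E β α ∧ ∀ ξ, E ξ s ↔ E ξ t ∧ E ξ β))) : Cov E a b := by
  classical
  -- the levels of `b` are unbounded in `κ`, otherwise `b` is covered
  by_contra hn
  have hunb : ∀ γ, E γ κ → ∃ p α t, E p b ∧ IsPair E p α t ∧ ¬ E α γ := by
    intro γ hγ
    by_contra hc
    push Not at hc
    apply hn
    refine (h.cov hZ hγ).trans hZ ?_
    refine Cov.ofRel hZ (R := fun α p => E p b ∧ ∃ t, IsPair E p α t) (by (repeat' (first | assumption | (apply DefFun.comp; assumption) | apply IsLim.df | apply Cov.df | apply IsHart.df | apply IsRegC.df | apply InH.df | apply Instr.df | apply IsNum.df | apply IsEval.df | apply IsAsg.df | apply IsProg.df | apply IsStr.df | apply IsTyp.df | apply IsCard.df | apply HasRank.df | apply IsV.df | apply IsVseq.df | apply Maps.df | apply IsFun.df | apply App.df | apply IsOmega.df | apply IsNat.df | apply IsZS.df | apply IsOrd.df | apply IsTr.df | apply IsSucc.df | apply IsPair.df | apply IsUPair.df | apply IsEmp.df | apply Sub.df | exact DefFun.var _ | exact DefFun.const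 _ | apply Def.eq | apply Def.mem | apply Def.not | apply Def.and | apply Def.or | apply Def.iff | apply Def.imp | apply Def.exU | apply Def.ex | apply Def.all))) ?_ ?_
    · rintro α _ p q ⟨h1, t, h2⟩ ⟨h3, s, h4⟩
      rcases hb p q α t α s h1 h3 h2 h4 with h5 | ⟨h5, _⟩ | ⟨h5, _⟩
      · exact h5
      · exact (hZ.irrefl _ h5).elim
      · exact (hZ.irrefl _ h5).elim
    · intro p hp
      obtain ⟨α, t, h1, _, _⟩ := hT p (hbT p hp)
      exact ⟨α, hc p α t hp h1, hp, t, h1⟩
  -- the union of the nodes of `b`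
  obtain ⟨B, hB⟩ := hZ.sep1 (P := fun ξ => ∃ p α t, E p b ∧ IsPair E p α t ∧ E ξ t) (by (repeat' (first | assumption | (apply DefFun.comp; assumption) | apply IsLim.df | apply Cov.df | apply IsHart.df | apply IsRegC.df | apply InH.df | apply Instr.df | apply IsNum.df | apply IsEval.df | apply IsAsg.df | apply IsProg.df | apply IsStr.df | apply IsTyp.df | apply IsCard.df | apply HasRank.df | apply IsV.df | apply IsVseq.df | apply Maps.df | apply IsFun.df | apply App.df | apply IsOmega.df | apply IsNat.df | apply IsZS.df | apply IsOrd.df | apply IsTr.df | apply IsSucc.df | apply IsPair.df | apply IsUPair.df | apply IsEmp.df | apply Sub.df | exact DefFun.var _ | exact DefFun.const _ | apply Def.eq | apply Def.mem | apply Def.not | apply Def.and | apply Def.or | apply Def.iff | apply Def.imp | apply Def.exU | apply Def.ex | apply Def.all))) κ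
  apply hbr
  refine ⟨B, fun α hα => ?_⟩
  have hlim := h.lim hZ hw hwa
  obtain ⟨α', hα', hs⟩ := hlim.2.2 α hα
  obtain ⟨p, β, t, hp, hpt, hβ⟩ := hunb α' hα'
  have hpT := hT p (hbT p hp)
  obtain ⟨β', t', hpt', hβκ, htβ⟩ := hpT
  obtain ⟨rfl, rfl⟩ := hpt.inj hZ hpt'
  have hαβ : E α β := by
    rcases (h.1.mem hβκ).tri hZ (h.1.mem hα') with h1 | rfl | h1
    · exact (hβ h1).elim
    · exact hs.self
    · exact (h.1.mem hβκ).trans h1 hs.self
  obtain ⟨s, hs'⟩ := hZ.sep1 (P := fun ξ => E ξ α) (by (repeat' (first | assumption | (apply DefFun.comp; assumption) | apply IsLim.df | apply Cov.df | apply IsHart.df | apply IsRegC.df | apply InH.df | apply Instr.df | apply IsNum.df | apply IsEval.df | apply IsAsg.df | apply IsProg.df | apply IsStr.df | apply IsTyp.df | apply IsCard.df | apply HasRank.df | apply IsV.df | apply IsVseq.df | apply Maps.df | apply IsFun.df | apply App.df | apply IsOmega.df | apply IsNat.df | apply IsZS.df | apply IsOrd.df | apply IsTr.df | apply IsSucc.df | apply IsPair.df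 | apply IsUPair.df | apply IsEmp.df | apply Sub.df | exact DefFun.var _ | exact DefFun.const _ | apply Def.eq | apply Def.mem | apply Def.not | apply Def.and | apply Def.or | apply Def.iff | apply Def.imp | apply Def.exU | apply Def.ex | apply Def.all))) t
  obtain ⟨q, hq⟩ := hZ.exPair α s
  refine ⟨q, s, hres p β t α s q (hbT p hp) hpt hαβ hs' hq, hq, fun ξ => ?_⟩
  rw [hs', hB]
  constructor
  · rintro ⟨h1, h2⟩
    exact ⟨⟨h.1.trans hα h2, p, β, t, hp, hpt, h1⟩, h2⟩
  · rintro ⟨⟨_, p', γ, t', hp', hpt', hξ⟩, h2⟩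
    refine ⟨?_, h2⟩
    rcases hb p p' β t γ t' hp hp' hpt hpt' with rfl | ⟨h3, h4⟩ | ⟨h3, h4⟩
    · obtain ⟨_, rfl⟩ := hpt.inj hZ hpt'
      exact hξ
    · exact (h4 ξ).2 ⟨hξ, (h.1.mem hβκ).trans hαβ h2⟩
    · exact ((h4 ξ).1 hξ).1

end

end HESR
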