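import Pool.Agent.W_MP_0bf392_lc.Defs
import Pool.Agent.W_MP_83aea7_lc.WO

set_option autoImplicit false

/-!
# MP_315f31_lc, part C: bridge between the two formalizations of models of ZFC

`IM.IsZFC E` (formulas with variables indexed by the natural numbers) implies `HESR.IsZFC E`
(formulas with free variables in `Fin k`), so the library of `W_MP_83aea7_lc` applies.
-/

namespace ZC

universe u

/-- translation of formulas -/
def toIM : {k : ℕ} → HESR.Fml k → IM.Fml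
  | _, .mem i j => .mem i j
  | _, .eq i j => .eq i j
  | _, .neg φ => .neg (toIM φ)
  | _, .and φ ψ => .and (toIM φ) (toIM ψ)
  | _, .ex φ => .neg (.all (.neg (toIM φ)))

variable {M : Type u} {E : M → M → Prop}

theorem cons_agree {k : ℕ} {v : Fin k → M} {w : ℕ → M} (h : ∀ i : Fin k, w i = v i) (x : M) :
    ∀ i : Fin (k + 1), IM.cons x w i = (Fin.cons x v : Fin (k + 1) → M) i := by
  intro i
  refine Fin.cases ?_ (fun i => ?_) i
  · rfl
  · rw [Fin.cons_succ, Fin.val_succ]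
    exact h i

theorem sat_toIM {k : ℕ} (φ : HESR.Fml k) (v : Fin k → M) (w : ℕ → M) (h : ∀ i : Fin k, w i = v i) :
    (toIM φ).Sat E w ↔ HESR.Sat E φ v := by
  induction φ generalizing w with
  | mem i j => simp only [toIM, IM.Fml.Sat, HESR.Sat, h]
  | eq i j => simp only [toIM, IM.Fml.Sat, HESR.Sat, h]
  | neg φ ih => simp only [toIM, IM.Fml.Sat, HESR.Sat, ih v w h]
  | and φ ψ ih1 ih2 => simp only [toIM, IM.Fml.Sat, HESR.Sat, ih1 v w h, ih2 v w h]
  | ex φ ih =>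
    simp only [toIM, IM.Fml.Sat, HESR.Sat]
    rw [not_forall]
    refine exists_congr fun x => ?_
    rw [ih (Fin.cons x v) (IM.cons x w) (cons_agree h x), not_not]

/-- extension of a finite assignment -/
def ext {k : ℕ} (v : Fin k → M) (d : M) (n : ℕ) : M := if h : n < k then v ⟨n, h⟩ else d

theorem ext_eq {k : ℕ} (v : Fin k → M) (d : M) (i : Fin k) : ext v d i = v i := by
  simp [ext]

theorem isZFC (hZ : IM.IsZFC E) : HESR.IsZFC E := by
  have hsep : ∀ (k : ℕ) (φ : HESR.Fml (k + 1)) (v : Fin k → M) (a : M),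
      ∃ b, ∀ x, E x b ↔ E x a ∧ HESR.Sat E φ (Fin.cons x v) := by
    intro k φ v a
    obtain ⟨b, hb⟩ := hZ.separation (toIM φ) (ext v a) a
    refine ⟨b, fun x => ?_⟩
    rw [hb, sat_toIM φ (Fin.cons x v) _ (cons_agree (ext_eq v a) x)]
  refine ⟨hZ.ext, hZ.foundation, hZ.pairing, hZ.union, hZ.powerset, ?_, ?_, hsep, ?_⟩
  · obtain ⟨a, ⟨e, he, he'⟩, ha⟩ := hZ.infinity
    refine ⟨a, ⟨e, he', he⟩, fun x hx => ?_⟩
    obtain ⟨y, hy, hy'⟩ := ha x hx
    exact ⟨y, hy', hy⟩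
  · intro a h1 h2
    obtain ⟨c, hc⟩ := hZ.choice a h1 (fun x y hx hy ⟨z, hz, hz'⟩ => h2 x y z hx hy hz hz')
    refine ⟨c, fun x hx => ?_⟩
    obtain ⟨y, hy, hu⟩ := hc x hx
    exact ⟨y, hy, fun z hz hz' => hu z ⟨hz, hz'⟩⟩
  · intro k φ v a h
    let ψ : HESR.Fml (k + 1) :=
      .ex (φ.rename (Fin.cons 1 (Fin.cons 0 fun i => i.succ.succ)))
    have hψ : ∀ x, HESR.Sat E ψ (Fin.cons x v) ↔ ∃ y, HESR.Sat E φ (Fin.cons x (Fin.cons y v)) := by
      intro x
      simp only [ψ, HESR.Sat]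
      refine exists_congr fun y => ?_
      rw [HESR.sat_rename]
      refine iff_of_eq (congrArg _ ?_)
      funext i
      refine Fin.cases ?_ (fun i => ?_) i
      · rfl
      · refine Fin.cases ?_ (fun i => ?_) i
        · rfl
        · rfl
    obtain ⟨a', ha'⟩ := hsep k ψ v a
    obtain ⟨b, hb⟩ := hZ.replacement (toIM φ) (ext v a) a' (fun x hx => by
      obtain ⟨hxa, hx⟩ := (ha' x).1 hx
      obtain ⟨y, hy⟩ := (hψ x).1 hx
      refine ⟨y, ?_, fun z hz => ?_⟩
      · exact (sat_toIM φ (Fin.cons x (Fin.cons y v)) _ (cons_agree (cons_agree (ext_eq v a) y) x)).2 hy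
      · exact h x hxa z y ((sat_toIM φ (Fin.cons x (Fin.cons z v)) _
          (cons_agree (cons_agree (ext_eq v a) z) x)).1 hz) hy)
    refine ⟨b, fun y => (hb y).trans ?_⟩
    constructor
    · rintro ⟨x, hx, hxy⟩
      exact ⟨x, ((ha' x).1 hx).1, (sat_toIM φ (Fin.cons x (Fin.cons y v)) _
        (cons_agree (cons_agree (ext_eq v a) y) x)).1 hxy⟩
    · rintro ⟨x, hx, hxy⟩
      exact ⟨x, (ha' x).2 ⟨hx, (hψ x).2 ⟨y, hxy⟩⟩, (sat_toIM φ (Fin.cons x (Fin.cons y v)) _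
        (cons_agree (cons_agree (ext_eq v a) y) x)).2 hxy⟩

end ZC
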