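import Pool.Agent.W_MP_315f31_lc.C.Rank

set_option autoImplicit false

/-!
# MP_315f31_lc, part C: the sets `H_θ` in a model of ZFC
-/

namespace HESR
universe u
variable {N : Type u} {E : N → N → Prop}

section
variable (hZ : IsZFC E)
include hZ

/-- collection -/
theorem IsZFC.exCollect {R : N → N → Prop} (hR : Def2 E R) (b : N) (h : ∀ x, E x b → ∃ y, R x y) :
    ∃ P, ∀ x, E x b → ∃ y, E y P ∧ R x y := by
  have h0 : Def2 E (fun x α => ∃ v y, IsV E α v ∧ E y v ∧ R x y) :=
    Def.ex (R := fun v w => ∃ y, IsV E (w 1) v ∧ E y v ∧ R (w 0) y)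
      (Def.ex (R := fun y w => IsV E (w 2) (w 0) ∧ E y (w 0) ∧ R (w 1) y)
        (Def.and (IsV.df (DefFun.var _) (DefFun.var _)) (Def.and (Def.mem (DefFun.var _) (DefFun.var _))
          (Def.sub2 hR (DefFun.var _) (DefFun.var _)))))
  have hD : Def2 E (fun x α => IsOrd E α ∧ (∃ v y, IsV E α v ∧ E y v ∧ R x y) ∧
      ∀ β, E β α → ¬ ∃ v y, IsV E β v ∧ E y v ∧ R x y) :=
    Def.and (IsOrd.df (DefFun.var _)) (Def.and h0 (Def.all
      (R := fun β w => E β (w 1) → ¬ ∃ v y, IsV E β v ∧ E y v ∧ R (w 0) y)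
      (Def.imp (Def.mem (DefFun.var _) (DefFun.var _)) (Def.not (Def.sub2 h0 (DefFun.var _) (DefFun.var _))))))
  obtain ⟨S, hS⟩ := hZ.repl2 hD b (fun x _ α β h1 h2 => by
    rcases h1.1.tri hZ h2.1 with h3 | h3 | h3
    · exact (h2.2.2 α h3 h1.2.1).elim
    · exact h3
    · exact (h1.2.2 β h3 h2.2.1).elim)
  obtain ⟨β, hβ, hSβ⟩ := hZ.ordBound (a := S) (fun α hα => by
    obtain ⟨y, _, h1⟩ := (hS α).1 hα
    exact h1.1)
  obtain ⟨v, hv⟩ := hZ.exV hβ
  refine ⟨v, fun x hx => ?_⟩
  obtain ⟨y, hy⟩ := h x hx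
  obtain ⟨α, v1, hα, hv1, hyv1⟩ := hZ.exRank y
  obtain ⟨α', hα', h2, h3⟩ := hα.least hZ (P := fun α => ∃ v y, IsV E α v ∧ E y v ∧ R x y)
    (Def.sub2 h0 (DefFun.const _) (DefFun.var _)) ⟨v1, y, hv1, hyv1, hy⟩
  have h4 : E α' S := (hS α').2 ⟨x, hx, hα', h2, h3⟩
  obtain ⟨v2, y2, hv2, hyv2, hRy⟩ := h2
  exact ⟨y2, hv.mono hZ hβ (hSβ α' h4) hv2 y2 hyv2, hRy⟩

/-- choice for definable families of nonempty classes -/
theorem IsZFC.exSelect' {R : N → N → Prop} (hR : Def2 E R) (b : N) (h : ∀ x, E x b → ∃ y, R x y) :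
    ∃ c, IsFun E c b ∧ ∀ x y, App E c x y → R x y := by
  obtain ⟨P, hP⟩ := hZ.exCollect hR b h
  obtain ⟨c, hc, hcR⟩ := hZ.exSelect hR b P hP
  exact ⟨c, hc, fun x y hxy => (hcR x y hxy).2⟩

/-- products of small sets are small -/
theorem IsRegC.cov_prod {θ β γ c : N} (h : IsRegC E θ) (hβ : E β θ) (hγ : E γ θ)
    (hc : ∀ p, E p c → ∃ x y, E x β ∧ E y γ ∧ IsPair E p x y) : ∃ δ, E δ θ ∧ Cov E δ c := by
  refine (h.card hZ).cov_or hZ ?_
  rintro ⟨f, hf, hon⟩
  have hd0 : Def2 E (fun i η => ∀ j y p, E j γ → IsPair E p i j → App E f p y → E y θ → E y η) := by (repeat' (first | assumption | (apply DefFun.comp; assumption) | apply IsLim.df | apply Cov.df | apply IsHart.df | apply IsRegC.df | apply Instr.df | apply IsNum.df | apply IsEval.df | apply IsAsg.df | apply IsProg.df | apply IsStr.df | apply IsTyp.df | apply IsCard.df | apply HasRank.df | apply IsV.df | apply IsVseq.df | apply Maps.df | apply IsFun.df | apply App.df | apply IsOmega.df | apply IsNat.df | apply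 IsZS.df | apply IsOrd.df | apply IsTr.df | apply IsSucc.df | apply IsPair.df | apply IsUPair.df | apply IsEmp.df | apply Sub.df | exact DefFun.var _ | exact DefFun.const _ | apply Def.eq | apply Def.mem | apply Def.not | apply Def.and | apply Def.or | apply Def.iff | apply Def.imp | apply Def.exU | apply Def.ex | apply Def.all))
  have hd : Def2 E (fun i η => IsOrd E η ∧ (∀ j y p, E j γ → IsPair E p i j → App E f p y → E y θ → E y η) ∧
      ∀ ζ, E ζ η → ¬ (∀ j y p, E j γ → IsPair E p i j → App E f p y → E y θ → E y ζ)) := by (repeat' (first | assumption | (apply DefFun.comp; assumption) | apply IsLim.df | apply Cov.df | apply IsHart.df | apply IsRegC.df | apply Instr.df | apply IsNum.df | apply IsEval.df | apply IsAsg.df | apply IsProg.df | apply IsStr.df | apply IsTyp.df | apply IsCard.df | apply HasRank.df | apply IsV.df | apply IsVseq.df | apply Maps.df | apply IsFun.df | apply App.df | apply IsOmega.df | apply IsNat.df | apply IsZS.df | apply IsOrd.df | apply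 IsTr.df | apply IsSucc.df | apply IsPair.df | apply IsUPair.df | apply IsEmp.df | apply Sub.df | exact DefFun.var _ | exact DefFun.const _ | apply Def.eq | apply Def.mem | apply Def.not | apply Def.and | apply Def.or | apply Def.iff | apply Def.imp | apply Def.exU | apply Def.ex | apply Def.all))
  have hex : ∀ i, E i β → ∃ η, E η θ ∧ ∀ j y p, E j γ → IsPair E p i j → App E f p y → E y θ → E y η := by
    intro i _
    obtain ⟨η, hη, hb⟩ := h.bdd hZ (R := fun j y => ∃ p, IsPair E p i j ∧ App E f p y ∧ E y θ) (by (repeat' (first | assumption | (apply DefFun.comp; assumption) | apply IsLim.df | apply Cov.df | apply IsHart.df | apply IsRegC.df | apply Instr.df | apply IsNum.df | apply IsEval.df | apply IsAsg.df | apply IsProg.df | apply IsStr.df | apply IsTyp.df | apply IsCard.df | apply HasRank.df | apply IsV.df | apply IsVseq.df | apply Maps.df | apply IsFun.df | apply App.df | apply IsOmega.df | apply IsNat.df | apply IsZS.df | apply IsOrd.df | apply IsTr.df |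 apply IsSucc.df | apply IsPair.df | apply IsUPair.df | apply IsEmp.df | apply Sub.df | exact DefFun.var _ | exact DefFun.const _ | apply Def.eq | apply Def.mem | apply Def.not | apply Def.and | apply Def.or | apply Def.iff | apply Def.imp | apply Def.exU | apply Def.ex | apply Def.all))) hγ
      (Cov.refl hZ γ) (fun j _ y z => by
        rintro ⟨p, h1, h2, _⟩ ⟨p', h1', h2', _⟩
        obtain rfl := h1.uniq hZ h1'
        exact hf.val hZ h2 h2') (fun j y _ => by
        rintro ⟨p, _, _, h3⟩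
        exact h3)
    exact ⟨η, hη, fun j y p hj hp hpy hy => hb j y hj ⟨p, hp, hpy, hy⟩⟩
  obtain ⟨η, hη, hb⟩ := h.bdd hZ hd hβ (Cov.refl hZ β) (fun i _ a b h1 h2 => by
      rcases h1.1.tri hZ h2.1 with h3 | h3 | h3
      · exact (h2.2.2 a h3 h1.2.1).elim
      · exact h3
      · exact (h1.2.2 b h3 h2.2.1).elim) (fun i a hi ha => by
      obtain ⟨η, hη, hb⟩ := hex i hi
      have hηo := h.1.1.mem hη
      rcases ha.1.tri hZ hηo with h3 | rfl | h3
      · exact h.1.1.trans hη h3
      · exact hη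
      · exact (ha.2.2 η h3 hb).elim)
  obtain ⟨p, hp⟩ := hon η hη
  obtain ⟨i, j, hi, hj, hpij⟩ := hc p (hf.dom hZ hp)
  obtain ⟨η0, hη0, hb0⟩ := hex i hi
  obtain ⟨a, ha, hab, hal⟩ := (h.1.1.mem hη0).least hZ
    (P := fun η => ∀ j y p, E j γ → IsPair E p i j → App E f p y → E y θ → E y η)
    (Def.sub2 hd0 (DefFun.const _) (DefFun.var _)) hb0
  have h1 := hb i a hi ⟨ha, hab, hal⟩
  have h2 := hab j η p hj hpij hp hη
  exact hZ.asymm h1 h2

/-- adding one element -/
theorem Cov.insert {β β' a a' c : N} (hs : IsSucc E β' β) (ha : ∀ z, E z a' → E z a ∨ z = c) (h : Cov E β a) :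
    Cov E β' a' := by
  obtain ⟨f, hf, hfc⟩ := h
  refine Cov.ofRel hZ (R := fun i z => (E i β ∧ App E f i z) ∨ (i = β ∧ z = c)) (by (repeat' (first | assumption | (apply DefFun.comp; assumption) | apply IsLim.df | apply Cov.df | apply IsHart.df | apply IsRegC.df | apply Instr.df | apply IsNum.df | apply IsEval.df | apply IsAsg.df | apply IsProg.df | apply IsStr.df | apply IsTyp.df | apply IsCard.df | apply HasRank.df | apply IsV.df | apply IsVseq.df | apply Maps.df | apply IsFun.df | apply App.df | apply IsOmega.df | apply IsNat.df | apply IsZS.df | apply IsOrd.df | apply IsTr.df | apply IsSucc.df | apply IsPair.df | apply IsUPair.df | apply IsEmp.df | apply Sub.df | exact DefFun.var _ | exact DefFun.const _ | apply Def.eq | apply Def.mem | apply Def.not | apply Def.and | apply Def.or | apply Def.iff | apply Def.imp | apply Def.exU | apply Def.ex | apply Def.all))) ?_ ?_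
  · rintro i _ z z' (⟨h1, h2⟩ | ⟨rfl, rfl⟩) (⟨h3, h4⟩ | ⟨h3, h4⟩)
    · exact hf.val hZ h2 h4
    · subst h3
      exact (hZ.irrefl _ h1).elim
    · exact (hZ.irrefl _ h3).elim
    · exact h4.symm
  · intro z hz
    rcases ha z hz with h1 | rfl
    · obtain ⟨i, hi⟩ := hfc z h1
      exact ⟨i, (hs i).2 (Or.inl (hf.dom hZ hi)), Or.inl ⟨hf.dom hZ hi, hi⟩⟩
    · exact ⟨β, hs.self, Or.inr ⟨rfl, rfl⟩⟩

omit hZ in
theorem IsRegC.succ {θ β β' : N} (hZ : IsZFC E) (h : IsRegC E θ) (hβ : E β θ) (hs : IsSucc E β' β) : E β' θ := by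
  obtain ⟨y, hy, hys⟩ := h.1.2.2 β hβ
  obtain rfl := hs.uniq hZ hys
  exact hy

omit hZ in
theorem IsRegC.zero {θ e : N} (hZ : IsZFC E) (h : IsRegC E θ) (he : IsEmp E e) : E e θ := by
  rcases he.ord.tri hZ h.1.1 with h1 | rfl | h1
  · exact h1
  · obtain ⟨x, hx⟩ := h.1.2.1
    exact (he x hx).elim
  · exact (he θ h1).elim

/-- small unions of small sets are small -/
theorem IsRegC.cov_union {θ x u β : N} (h : IsRegC E θ) (hβ : E β θ) (hx : Cov E β x)
    (hy : ∀ y, E y x → ∃ γ, E γ θ ∧ Cov E γ y) (hu : ∀ z, E z u → ∃ y, E y x ∧ E z y) :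
    ∃ δ, E δ θ ∧ Cov E δ u := by
  obtain ⟨γ, hγ, hb⟩ := h.bdd hZ (R := fun y γ => IsOrd E γ ∧ Cov E γ y ∧ ∀ δ, E δ γ → ¬ Cov E δ y) (by (repeat' (first | assumption | (apply DefFun.comp; assumption) | apply IsLim.df | apply Cov.df | apply IsHart.df | apply IsRegC.df | apply Instr.df | apply IsNum.df | apply IsEval.df | apply IsAsg.df | apply IsProg.df | apply IsStr.df | apply IsTyp.df | apply IsCard.df | apply HasRank.df | apply IsV.df | apply IsVseq.df | apply Maps.df | apply IsFun.df | apply App.df | apply IsOmega.df | apply IsNat.df | apply IsZS.df | apply IsOrd.df | apply IsTr.df | apply IsSucc.df | apply IsPair.df | apply IsUPair.df | apply IsEmp.df | apply Sub.df | exact DefFun.var _ | exact DefFun.const _ | apply Def.eq | apply Def.mem | apply Def.not | apply Def.and | apply Def.or | apply Def.iff | apply Def.imp | apply Def.exU | apply Def.ex | apply Def.all))) hβ hx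
    (fun y _ a b h1 h2 => by
      rcases h1.1.tri hZ h2.1 with h3 | h3 | h3
      · exact (h2.2.2 a h3 h1.2.1).elim
      · exact h3
      · exact (h1.2.2 b h3 h2.2.1).elim) (fun y a hyx ha => by
      obtain ⟨η, hη, hb⟩ := hy y hyx
      have hηo := h.1.1.mem hη
      rcases ha.1.tri hZ hηo with h3 | rfl | h3
      · exact h.1.1.trans hη h3
      · exact hη
      · exact (ha.2.2 η h3 hb).elim)
  have hγo := h.1.1.mem hγ
  have hcov : ∀ y, E y x → Cov E γ y := by
    intro y hyx
    obtain ⟨η, hη, hc⟩ := hy y hyx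
    obtain ⟨a, ha, hac, hal⟩ := (h.1.1.mem hη).least hZ (P := fun a => Cov E a y) (by (repeat' (first | assumption | (apply DefFun.comp; assumption) | apply IsLim.df | apply Cov.df | apply IsHart.df | apply IsRegC.df | apply Instr.df | apply IsNum.df | apply IsEval.df | apply IsAsg.df | apply IsProg.df | apply IsStr.df | apply IsTyp.df | apply IsCard.df | apply HasRank.df | apply IsV.df | apply IsVseq.df | apply Maps.df | apply IsFun.df | apply App.df | apply IsOmega.df | apply IsNat.df | apply IsZS.df | apply IsOrd.df | apply IsTr.df | apply IsSucc.df | apply IsPair.df | apply IsUPair.df | apply IsEmp.df | apply Sub.df | exact DefFun.var _ | exact DefFun.const _ | apply Def.eq | apply Def.mem | apply Def.not | apply Def.and | apply Def.or | apply Def.iff | apply Def.imp | apply Def.exU | apply Def.ex | apply Def.all))) hc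
    have h1 := hb y a hyx ⟨ha, hac, hal⟩
    exact hac.dom_mono hZ fun z hz => hγo.trans h1 hz
  obtain ⟨c, hc, hcR⟩ := hZ.exSelect' (R := fun y f => IsFun E f γ ∧ ∀ z, E z y → ∃ j, App E f j z) (by (repeat' (first | assumption | (apply DefFun.comp; assumption) | apply IsLim.df | apply Cov.df | apply IsHart.df | apply IsRegC.df | apply Instr.df | apply IsNum.df | apply IsEval.df | apply IsAsg.df | apply IsProg.df | apply IsStr.df | apply IsTyp.df | apply IsCard.df | apply HasRank.df | apply IsV.df | apply IsVseq.df | apply Maps.df | apply IsFun.df | apply App.df | apply IsOmega.df | apply IsNat.df | apply IsZS.df | apply IsOrd.df | apply IsTr.df | apply IsSucc.df | apply IsPair.df | apply IsUPair.df | apply IsEmp.df | apply Sub.df | exact DefFun.var _ | exact DefFun.const _ | apply Def.eq | apply Def.mem | apply Def.not | apply Def.and | apply Def.or | apply Def.iff | apply Def.imp | apply Def.exU | apply Def.ex | apply Def.all))) x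
    (fun y hyx => hcov y hyx)
  obtain ⟨g, hg, hgx⟩ := hx
  obtain ⟨pr, hpr⟩ := hZ.exProd β γ
  obtain ⟨δ, hδ, hδc⟩ := h.cov_prod hZ hβ hγ (c := pr) (fun p hp => (hpr p).1 hp)
  refine ⟨δ, hδ, hδc.trans hZ ?_⟩
  refine Cov.ofRel hZ (R := fun p z => ∃ i j y f, IsPair E p i j ∧ App E g i y ∧ App E c y f ∧ App E f j z)
    (by (repeat' (first | assumption | (apply DefFun.comp; assumption) | apply IsLim.df | apply Cov.df | apply IsHart.df | apply IsRegC.df | apply Instr.df | apply IsNum.df | apply IsEval.df | apply IsAsg.df | apply IsProg.df | apply IsStr.df | apply IsTyp.df | apply IsCard.df | apply HasRank.df | apply IsV.df | apply IsVseq.df | apply Maps.df | apply IsFun.df | apply App.df | apply IsOmega.df | apply IsNat.df | apply IsZS.df | apply IsOrd.df | apply IsTr.df | apply IsSucc.df | apply IsPair.df | apply IsUPair.df | apply IsEmp.df | apply Sub.df | exact DefFun.var _ | exact DefFun.const _ | apply Def.eq | apply Def.mem | apply Def.not | apply Def.and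 | apply Def.or | apply Def.iff | apply Def.imp | apply Def.exU | apply Def.ex | apply Def.all))) ?_ ?_
  · rintro p _ z z' ⟨i, j, y, f, h1, h2, h3, h4⟩ ⟨i', j', y', f', h1', h2', h3', h4'⟩
    obtain ⟨rfl, rfl⟩ := IsPair.inj hZ h1 h1'
    obtain rfl := hg.val hZ h2 h2'
    obtain rfl := hc.val hZ h3 h3'
    exact (hcR _ _ h3).1.val hZ h4 h4'
  · intro z hz
    obtain ⟨y, hyx, hzy⟩ := hu z hz
    obtain ⟨i, hi⟩ := hgx y hyx
    obtain ⟨f, hf⟩ := hc.ex hyx
    obtain ⟨hff, hfc⟩ := hcR y f hf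
    obtain ⟨j, hj⟩ := hfc z hzy
    obtain ⟨p, hp⟩ := hZ.exPair i j
    exact ⟨p, (hpr p).2 ⟨i, j, hg.dom hZ hi, hff.dom hZ hj, hp⟩, i, j, y, f, hp, hi, hf, hj⟩

end

/-- `x ∈ H_θ`: some transitive set of size less than `θ` contains `x` -/
def InH (E : N → N → Prop) (θ x : N) : Prop := ∃ t, IsTr E t ∧ E x t ∧ ∃ β, E β θ ∧ Cov E β t

theorem InH.df {k : ℕ} {f g : (Fin k → N) → N} (hf : DefFun E f) (hg : DefFun E g) :
    Def E (fun v => InH E (f v) (g v)) :=
  Def.sub2 (R := fun θ x => InH E θ x) (by unfold InH; (repeat' (first | assumption | (apply DefFun.comp; assumption) | apply IsLim.df | apply Cov.df | apply IsHart.df | apply IsRegC.df | apply Instr.df | apply IsNum.df | apply IsEval.df | apply IsAsg.df | apply IsProg.df | apply IsStr.df | apply IsTyp.df | apply IsCard.df | apply HasRank.df | apply IsV.df | apply IsVseq.df | apply Maps.df | apply IsFun.df | apply App.df | apply IsOmega.df | apply IsNat.df | apply IsZS.df | apply IsOrd.df | apply IsTr.df | apply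 IsSucc.df | apply IsPair.df | apply IsUPair.df | apply IsEmp.df | apply Sub.df | exact DefFun.var _ | exact DefFun.const _ | apply Def.eq | apply Def.mem | apply Def.not | apply Def.and | apply Def.or | apply Def.iff | apply Def.imp | apply Def.exU | apply Def.ex | apply Def.all))) hf hg

theorem InH.tr {θ x y : N} (h : InH E θ x) (hy : E y x) : InH E θ y := by
  obtain ⟨t, ht, hx, hc⟩ := h
  exact ⟨t, ht, ht x hx y hy, hc⟩

theorem InH.mono {θ θ' x : N} (h : InH E θ x) (hs : Sub E θ θ') : InH E θ' x := by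
  obtain ⟨t, ht, hx, β, hβ, hc⟩ := h
  exact ⟨t, ht, hx, β, hs β hβ, hc⟩

section
variable (hZ : IsZFC E)
include hZ

/-- the elements of `H_θ` are small -/
theorem InH.cov {θ x : N} (h : InH E θ x) : ∃ β, E β θ ∧ Cov E β x := by
  obtain ⟨t, ht, hx, β, hβ, hc⟩ := h
  exact ⟨β, hβ, hc.mono (ht x hx)⟩

/-- a small subset of `H_θ` is an element of `H_θ` -/
theorem InH.ofCov {θ x β : N} (h : IsRegC E θ) (hx : ∀ y, E y x → InH E θ y) (hβ : E β θ) (hc : Cov E β x) :
    InH E θ x := by
  obtain ⟨T, hT, hTR⟩ := hZ.exSelect' (R := fun y t => IsTr E t ∧ E y t ∧ ∃ β, E β θ ∧ Cov E β t) (by (repeat' (first | assumption | (apply DefFun.comp; assumption) | apply IsLim.df | apply Cov.df | apply IsHart.df | apply IsRegC.df | apply Instr.df | apply IsNum.df | apply IsEval.df | apply IsAsg.df | apply IsProg.df | apply IsStr.df | apply IsTyp.df | apply IsCard.df | apply HasRank.df | apply IsV.df | apply IsVseq.df | apply Maps.df | apply IsFun.df | apply App.df | apply IsOmega.df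 | apply IsNat.df | apply IsZS.df | apply IsOrd.df | apply IsTr.df | apply IsSucc.df | apply IsPair.df | apply IsUPair.df | apply IsEmp.df | apply Sub.df | exact DefFun.var _ | exact DefFun.const _ | apply Def.eq | apply Def.mem | apply Def.not | apply Def.and | apply Def.or | apply Def.iff | apply Def.imp | apply Def.exU | apply Def.ex | apply Def.all))) x hx
  obtain ⟨r, hr⟩ := hZ.exRange hT
  obtain ⟨u, hu⟩ := hZ.union r
  obtain ⟨t, ht⟩ := hZ.exInsert u x
  have hcr : Cov E β r := by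
    refine hc.trans hZ ⟨T, hT, fun z hz => ?_⟩
    obtain ⟨y, hy⟩ := (hr z).1 hz
    exact ⟨y, hy⟩
  obtain ⟨δ, hδ, hδu⟩ := h.cov_union hZ hβ hcr (u := u) (fun z hz => by
    obtain ⟨y, hy⟩ := (hr z).1 hz
    exact (hTR y z hy).2.2) (fun z hz => (hu z).1 hz)
  obtain ⟨δ', hδ'⟩ := hZ.exSucc δ
  refine ⟨t, fun y hy z hz => ?_, (ht x).2 (Or.inr rfl), δ', h.succ hZ hδ hδ', hδu.insert hZ hδ' fun z hz => (ht z).1 hz⟩
  refine (ht z).2 (Or.inl ?_)
  rcases (ht y).1 hy with h1 | rfl
  · obtain ⟨s, hs, hys⟩ := (hu y).1 h1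
    obtain ⟨y', hy'⟩ := (hr s).1 hs
    exact (hu z).2 ⟨s, hs, (hTR y' s hy').1 y hys z hz⟩
  · obtain ⟨s, hs⟩ := hT.ex hz
    exact (hu z).2 ⟨s, (hr s).2 ⟨z, hs⟩, (hTR z s hs).2.1⟩

theorem InH.sub {θ x y : N} (h : IsRegC E θ) (hx : InH E θ x) (hy : Sub E y x) : InH E θ y := by
  obtain ⟨β, hβ, hc⟩ := hx.cov hZ
  exact InH.ofCov hZ h (fun z hz => hx.tr (hy z hz)) hβ (hc.mono hy)

theorem InH.emp {θ e : N} (h : IsRegC E θ) (he : IsEmp E e) : InH E θ e :=
  InH.ofCov hZ h (fun y hy => (he y hy).elim) (h.zero hZ he) (Cov.ofSub hZ fun y hy => (he y hy).elim)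

theorem InH.insert {θ x x' c : N} (h : IsRegC E θ) (hx : InH E θ x) (hc : InH E θ c)
    (hx' : ∀ z, E z x' → E z x ∨ z = c) : InH E θ x' := by
  obtain ⟨β, hβ, hcv⟩ := hx.cov hZ
  obtain ⟨β', hβ'⟩ := hZ.exSucc β
  refine InH.ofCov hZ h (fun z hz => ?_) (h.succ hZ hβ hβ') (hcv.insert hZ hβ' hx')
  rcases hx' z hz with h1 | rfl
  · exact hx.tr h1
  · exact hc

theorem InH.upair {θ x y p : N} (h : IsRegC E θ) (hx : InH E θ x) (hy : InH E θ y) (hp : IsUPair E p x y) :
    InH E θ p := by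
  obtain ⟨e, he⟩ := hZ.exEmp
  obtain ⟨s, hs⟩ := hZ.exInsert e x
  have h1 : InH E θ s := InH.insert hZ h (InH.emp hZ h he) hx fun z hz => (hs z).1 hz
  refine InH.insert hZ h h1 hy fun z hz => ?_
  rcases (hp z).1 hz with rfl | rfl
  · exact Or.inl ((hs z).2 (Or.inr rfl))
  · exact Or.inr rfl

theorem InH.pair {θ x y p : N} (h : IsRegC E θ) (hx : InH E θ x) (hy : InH E θ y) (hp : IsPair E p x y) :
    InH E θ p := by
  obtain ⟨s, d, hs, hd, hpp⟩ := hp
  exact InH.upair hZ h (InH.upair hZ h hx hx hs) (InH.upair hZ h hx hy hd) hpp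

omit hZ in
theorem InH.of_pair {θ x y p : N} (h : InH E θ p) (hp : IsPair E p x y) : InH E θ x ∧ InH E θ y := by
  obtain ⟨s, d, hs, hd, hpp⟩ := hp
  have h1 : InH E θ d := h.tr ((hpp d).2 (Or.inr rfl))
  exact ⟨h1.tr ((hd x).2 (Or.inl rfl)), h1.tr ((hd y).2 (Or.inr rfl))⟩

theorem InH.union {θ x u : N} (h : IsRegC E θ) (hx : InH E θ x) (hu : ∀ z, E z u → ∃ y, E y x ∧ E z y) :
    InH E θ u := by
  have hx' := hx
  obtain ⟨t, ht, hxt, β, hβ, hc⟩ := hx
  refine InH.ofCov hZ h (fun z hz => ?_) hβ (hc.mono fun z hz => ?_)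
  · obtain ⟨y, hy, hzy⟩ := hu z hz
    exact (hx'.tr hy).tr hzy
  · obtain ⟨y, hy, hzy⟩ := hu z hz
    exact ht y (ht x hxt y hy) z hzy

theorem InH.union2 {θ x y u : N} (h : IsRegC E θ) (hx : InH E θ x) (hy : InH E θ y)
    (hu : ∀ z, E z u → E z x ∨ E z y) : InH E θ u := by
  obtain ⟨p, hp⟩ := hZ.exUPair x y
  refine InH.union hZ h (InH.upair hZ h hx hy hp) fun z hz => ?_
  rcases hu z hz with h1 | h1
  · exact ⟨x, (hp x).2 (Or.inl rfl), h1⟩
  · exact ⟨y, (hp y).2 (Or.inr rfl), h1⟩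

/-- functions from elements of `H_θ` into `H_θ` are in `H_θ` -/
theorem InH.ofFun {θ f a : N} (h : IsRegC E θ) (ha : InH E θ a) (hf : IsFun E f a)
    (hv : ∀ x y, App E f x y → InH E θ y) : InH E θ f := by
  obtain ⟨β, hβ, hc⟩ := ha.cov hZ
  refine InH.ofCov hZ h (fun p hp => ?_) hβ (hc.trans hZ ?_)
  · obtain ⟨x, y, hx, hxy⟩ := hf.1 p hp
    exact InH.pair hZ h (ha.tr hx) (hv x y ⟨p, hp, hxy⟩) hxy
  · refine Cov.ofRel hZ (R := fun x p => E p f ∧ ∃ y, IsPair E p x y) (by (repeat' (first | assumption | (apply DefFun.comp; assumption) | apply IsLim.df | apply Cov.df | apply IsHart.df | apply IsRegC.df | apply Instr.df | apply IsNum.df | apply IsEval.df | apply IsAsg.df | apply IsProg.df | apply IsStr.df | apply IsTyp.df | apply IsCard.df | apply HasRank.df | apply IsV.df | apply IsVseq.df | apply Maps.df | apply IsFun.df | apply App.df | apply IsOmega.df | apply IsNat.df | apply IsZS.df | apply IsOrd.df | apply IsTr.df | apply IsSucc.df | apply IsPair.df | apply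 IsUPair.df | apply IsEmp.df | apply Sub.df | exact DefFun.var _ | exact DefFun.const _ | apply Def.eq | apply Def.mem | apply Def.not | apply Def.and | apply Def.or | apply Def.iff | apply Def.imp | apply Def.exU | apply Def.ex | apply Def.all))) ?_ ?_
    · rintro x _ p p' ⟨h1, y, h2⟩ ⟨h3, y', h4⟩
      obtain rfl := hf.val hZ ⟨p, h1, h2⟩ ⟨p', h3, h4⟩
      exact h2.uniq hZ h4
    · intro p hp
      obtain ⟨x, y, hx, hxy⟩ := hf.1 p hp
      exact ⟨x, hx, hp, y, hxy⟩

/-- the product of two elements of `H_θ` -/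
theorem InH.prod {θ a b c : N} (h : IsRegC E θ) (ha : InH E θ a) (hb : InH E θ b)
    (hc : ∀ p, E p c → ∃ x y, E x a ∧ E y b ∧ IsPair E p x y) : InH E θ c := by
  obtain ⟨β, hβ, f, hf, hfa⟩ := ha.cov hZ
  obtain ⟨γ, hγ, g, hg, hgb⟩ := hb.cov hZ
  obtain ⟨pr, hpr⟩ := hZ.exProd β γ
  obtain ⟨δ, hδ, hcv⟩ := h.cov_prod hZ hβ hγ (c := pr) (fun p hp => (hpr p).1 hp)
  refine InH.ofCov hZ h (fun p hp => ?_) hδ (hcv.trans hZ ?_)
  · obtain ⟨x, y, hx, hy, hp'⟩ := hc p hp
    exact InH.pair hZ h (ha.tr hx) (hb.tr hy) hp'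
  · refine Cov.ofRel hZ (R := fun q p => ∃ i j x y, IsPair E q i j ∧ App E f i x ∧ App E g j y ∧ IsPair E p x y)
      (by (repeat' (first | assumption | (apply DefFun.comp; assumption) | apply IsLim.df | apply Cov.df | apply IsHart.df | apply IsRegC.df | apply Instr.df | apply IsNum.df | apply IsEval.df | apply IsAsg.df | apply IsProg.df | apply IsStr.df | apply IsTyp.df | apply IsCard.df | apply HasRank.df | apply IsV.df | apply IsVseq.df | apply Maps.df | apply IsFun.df | apply App.df | apply IsOmega.df | apply IsNat.df | apply IsZS.df | apply IsOrd.df | apply IsTr.df | apply IsSucc.df | apply IsPair.df | apply IsUPair.df | apply IsEmp.df | apply Sub.df | exact DefFun.var _ | exact DefFun.const _ | apply Def.eq | apply Def.mem | apply Def.not | apply Def.and | apply Def.or | apply Def.iff | apply Def.imp | apply Def.exU | apply Def.ex | apply Def.all))) ?_ ?_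
    · rintro q _ p p' ⟨i, j, x, y, h1, h2, h3, h4⟩ ⟨i', j', x', y', h1', h2', h3', h4'⟩
      obtain ⟨rfl, rfl⟩ := IsPair.inj hZ h1 h1'
      obtain rfl := hf.val hZ h2 h2'
      obtain rfl := hg.val hZ h3 h3'
      exact h4.uniq hZ h4'
    · intro p hp
      obtain ⟨x, y, hx, hy, hp'⟩ := hc p hp
      obtain ⟨i, hi⟩ := hfa x hx
      obtain ⟨j, hj⟩ := hgb y hy
      obtain ⟨q, hq⟩ := hZ.exPair i j
      exact ⟨q, (hpr q).2 ⟨i, j, hf.dom hZ hi, hg.dom hZ hj, hq⟩, i, j, x, y, hq, hi, hj, hp'⟩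

/-- the ordinals of `H_θ` are the elements of `θ` -/
theorem InH.ord_iff {θ α : N} (h : IsRegC E θ) (hα : IsOrd E α) : InH E θ α ↔ E α θ := by
  constructor
  · rintro ⟨t, ht, hαt, β, hβ, hc⟩
    by_contra hn
    have hs : Sub E θ t := by
      rcases hα.tri hZ h.1.1 with h1 | rfl | h1
      · exact (hn h1).elim
      · exact fun z hz => ht _ hαt z hz
      · exact fun z hz => ht _ (ht _ hαt θ h1) z hz
    exact (h.card hZ).not_cov hβ (hc.mono hs)
  · intro hm
    obtain ⟨α', hα'⟩ := hZ.exSucc α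
    exact ⟨α', (IsSucc.ord hα hα').1, hα'.self, α', h.succ hZ hm hα', Cov.refl hZ α'⟩

/-- `H_θ` is contained in `V_θ` -/
theorem InH.rank {θ x v : N} (h : IsRegC E θ) (hv : IsV E θ v) (hx : InH E θ x) : E x v := by
  obtain ⟨t, ht, hxt, β, hβ, hc⟩ := hx
  by_contra hn
  obtain ⟨m, hmt, hm, hmin⟩ := hZ.minOf (P := fun x => ¬ E x v) (by (repeat' (first | assumption | (apply DefFun.comp; assumption) | apply IsLim.df | apply Cov.df | apply IsHart.df | apply IsRegC.df | apply Instr.df | apply IsNum.df | apply IsEval.df | apply IsAsg.df | apply IsProg.df | apply IsStr.df | apply IsTyp.df | apply IsCard.df | apply HasRank.df | apply IsV.df | apply IsVseq.df | apply Maps.df | apply IsFun.df | apply App.df | apply IsOmega.df | apply IsNat.df | apply IsZS.df | apply IsOrd.df | apply IsTr.df | apply IsSucc.df | apply IsPair.df | apply IsUPair.df | apply IsEmp.df | apply Sub.df | exact DefFun.var _ | exact DefFun.const _ | apply Def.eq | apply Def.mem | apply Def.not | apply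 Def.and | apply Def.or | apply Def.iff | apply Def.imp | apply Def.exU | apply Def.ex | apply Def.all))) ⟨x, hxt, hn⟩
  have hsub : ∀ y, E y m → E y v := fun y hy => by
    by_contra h1
    exact hmin y hy (ht m hmt y hy) h1
  obtain ⟨γ, hγ, hb⟩ := h.bdd hZ (R := fun y α => IsOrd E α ∧ (∃ v, IsV E α v ∧ E y v) ∧ ∀ β, E β α → ¬ ∃ v, IsV E β v ∧ E y v)
    (by (repeat' (first | assumption | (apply DefFun.comp; assumption) | apply IsLim.df | apply Cov.df | apply IsHart.df | apply IsRegC.df | apply Instr.df | apply IsNum.df | apply IsEval.df | apply IsAsg.df | apply IsProg.df | apply IsStr.df | apply IsTyp.df | apply IsCard.df | apply HasRank.df | apply IsV.df | apply IsVseq.df | apply Maps.df | apply IsFun.df | apply App.df | apply IsOmega.df | apply IsNat.df | apply IsZS.df | apply IsOrd.df | apply IsTr.df | apply IsSucc.df | apply IsPair.df | apply IsUPair.df | apply IsEmp.df | apply Sub.df | exact DefFun.var _ | exact DefFun.const _ | apply Def.eq | apply Def.mem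 | apply Def.not | apply Def.and | apply Def.or | apply Def.iff | apply Def.imp | apply Def.exU | apply Def.ex | apply Def.all))) hβ (b := m) (hc.mono (ht m hmt)) (fun y _ α β h1 h2 => by
      rcases h1.1.tri hZ h2.1 with h3 | h3 | h3
      · exact (h2.2.2 α h3 h1.2.1).elim
      · exact h3
      · exact (h1.2.2 β h3 h2.2.1).elim) (fun y α hy hα => by
      obtain ⟨η, w, hη, hw, hyw⟩ := (hv.lim_mem hZ h.1).1 (hsub y hy)
      rcases hα.1.tri hZ (h.1.1.mem hη) with h3 | rfl | h3
      · exact h.1.1.trans hη h3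
      · exact hη
      · exact (hα.2.2 η h3 ⟨w, hw, hyw⟩).elim)
  obtain ⟨w, hw⟩ := hZ.exV (h.1.1.mem hγ)
  refine hm (hv.of_sub hZ h.1 hγ hw fun y hy => ?_)
  obtain ⟨η, u, hη, hu, hyu⟩ := (hv.lim_mem hZ h.1).1 (hsub y hy)
  obtain ⟨α', hα', h2, h3⟩ := (h.1.1.mem hη).least hZ (P := fun α => ∃ v, IsV E α v ∧ E y v) (by (repeat' (first | assumption | (apply DefFun.comp; assumption) | apply IsLim.df | apply Cov.df | apply IsHart.df | apply IsRegC.df | apply Instr.df | apply IsNum.df | apply IsEval.df | apply IsAsg.df | apply IsProg.df | apply IsStr.df | apply IsTyp.df | apply IsCard.df | apply HasRank.df | apply IsV.df | apply IsVseq.df | apply Maps.df | apply IsFun.df | apply App.df | apply IsOmega.df | apply IsNat.df | apply IsZS.df | apply IsOrd.df | apply IsTr.df | apply IsSucc.df | apply IsPair.df | apply IsUPair.df | apply IsEmp.df | apply Sub.df | exact DefFun.var _ | exact DefFun.const _ | apply Def.eq | apply Def.mem | apply Def.not | apply Def.and | apply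 Def.or | apply Def.iff | apply Def.imp | apply Def.exU | apply Def.ex | apply Def.all))) ⟨u, hu, hyu⟩
  have h4 := hb y α' hy ⟨hα', h2, h3⟩
  obtain ⟨u', hu', hyu'⟩ := h2
  exact hw.mono hZ (h.1.1.mem hγ) h4 hu' y hyu'

/-- `H_θ` is a set -/
theorem IsRegC.exH {θ : N} (h : IsRegC E θ) : ∃ H, ∀ x, E x H ↔ InH E θ x := by
  obtain ⟨v, hv⟩ := hZ.exV h.1.1
  obtain ⟨H, hH⟩ := hZ.sep1 (P := fun x => InH E θ x) (Def.sub2 (R := fun θ x => InH E θ x)
    (InH.df (DefFun.var _) (DefFun.var _)) (DefFun.const _) (DefFun.var _)) v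
  exact ⟨H, fun x => (hH x).trans ⟨fun h1 => h1.2, fun h1 => ⟨h1.rank hZ h hv, h1⟩⟩⟩

/-- every set, together with a `V_l`, lies in `H_θ` for arbitrarily large regular `θ` -/
theorem IsZFC.exInH (x : N) {α : N} (hα : IsOrd E α) :
    ∃ θ l v, IsRegC E θ ∧ E α θ ∧ IsLim E l ∧ E α l ∧ (∀ w, IsOmega E w → E w l) ∧ IsV E l v ∧ E x v ∧ InH E θ v ∧
      IsHart E v θ := by
  obtain ⟨l, v, hl, hαl, hwl, hv, hxv⟩ := hZ.exRankLim x hα
  obtain ⟨θ, hθ, hh, hlθ, δ, hδ, hc⟩ := hZ.exRegC hl hv hwl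
  obtain ⟨t, ht⟩ := hZ.exInsert v v
  obtain ⟨δ', hδ'⟩ := hZ.exSucc δ
  refine ⟨θ, l, v, hθ, hθ.1.1.trans hlθ hαl, hl, hαl, hwl, hv, hxv, ⟨t, fun y hy z hz => (ht z).2 (Or.inl ?_),
    (ht v).2 (Or.inr rfl), δ', hθ.succ hZ hδ hδ', hc.insert hZ hδ' fun z hz => (ht z).1 hz⟩, hh⟩
  rcases (ht y).1 hy with h1 | rfl
  · exact hv.tr hZ hl.1 y h1 z hz
  · exact hz

end

end HESR
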