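import Pool.Agent.W_MP_315f31_lc.C.Reg

set_option autoImplicit false

/-!
# MP_315f31_lc, part C: transitive closures and ranks in a model of ZFC
-/

namespace HESR
universe u
variable {N : Type u} {E : N → N → Prop}

section
variable (hZ : IsZFC E)
include hZ

/-- a definable set-like relation gives a definable function -/
theorem IsZFC.exFof {Q : N → N → Prop} (hQ : Def2 E Q) (h : ∀ g, ∃ b, ∀ y, E y b ↔ Q g y) :
    ∃ F : N → N, DefFun E (fun v : Fin 1 → N => F (v 0)) ∧ ∀ g y, E y (F g) ↔ Q g y := by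
  choose F hF using h
  refine ⟨F, ?_, hF⟩
  have h1 : Def E (fun w : Fin 2 → N => ∀ y, E y (w 0) ↔ Q (w 1) y) :=
    Def.all (R := fun y w => E y (w 0) ↔ Q (w 1) y)
      (Def.iff (Def.mem (DefFun.var _) (DefFun.var _)) (Def.sub2 hQ (DefFun.var _) (DefFun.var _)))
  refine h1.congr fun w => ⟨fun hw y => ?_, fun hw => ?_⟩
  · show E y (w 0) ↔ Q (w 1) y
    have hw' : w 0 = F (w 1) := hw
    rw [hw']
    exact hF _ y
  · exact hZ.ext _ _ fun y => (hw y).trans (hF _ y).symm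

/-- every set is included in a transitive set -/
theorem IsZFC.exTrSup (a : N) : ∃ t, IsTr E t ∧ Sub E a t := by
  obtain ⟨w, hw⟩ := hZ.exOmega
  obtain ⟨F, hF, hFQ⟩ := hZ.exFof (Q := fun g y => E y a ∨ ((∃ b, IsFun E g b) ∧ ∃ n z x, App E g n z ∧ E x z ∧ E y x))
    (by (repeat' (first | assumption | (apply DefFun.comp; assumption) | apply IsLim.df | apply Cov.df | apply IsHart.df | apply Instr.df | apply IsNum.df | apply IsEval.df | apply IsAsg.df | apply IsProg.df | apply IsStr.df | apply IsTyp.df | apply IsCard.df | apply HasRank.df | apply IsV.df | apply IsVseq.df | apply Maps.df | apply IsFun.df | apply App.df | apply IsOmega.df | apply IsNat.df | apply IsZS.df | apply IsOrd.df | apply IsTr.df | apply IsSucc.df | apply IsPair.df | apply IsUPair.df | apply IsEmp.df | apply Sub.df | exact DefFun.var _ | exact DefFun.const _ | apply Def.eq | apply Def.mem | apply Def.not | apply Def.and | apply Def.or | apply Def.iff | apply Def.imp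 | apply Def.exU | apply Def.ex | apply Def.all))) (fun g => by
      by_cases hg : ∃ b, IsFun E g b
      · obtain ⟨b, hb⟩ := hg
        obtain ⟨r, hr⟩ := hZ.exRange hb
        obtain ⟨r1, hr1⟩ := hZ.union r
        obtain ⟨r2, hr2⟩ := hZ.union r1
        obtain ⟨c, hc⟩ := hZ.exUnion2 a r2
        refine ⟨c, fun y => (hc y).trans (or_congr Iff.rfl ?_)⟩
        rw [hr2]
        constructor
        · rintro ⟨x, h1, h2⟩
          obtain ⟨z, h3, h4⟩ := (hr1 x).1 h1
          obtain ⟨n, hn⟩ := (hr z).1 h3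
          exact ⟨⟨b, hb⟩, n, z, x, hn, h4, h2⟩
        · rintro ⟨_, n, z, x, h1, h2, h3⟩
          exact ⟨x, (hr1 x).2 ⟨z, (hr z).2 ⟨n, h1⟩, h2⟩, h3⟩
      · exact ⟨a, fun y => ⟨Or.inl, fun h => h.resolve_right fun h' => hg h'.1⟩⟩)
  obtain ⟨g, hg, hrec⟩ := hZ.exRec hF w hw.1
  obtain ⟨r, hr⟩ := hZ.exRange hg
  obtain ⟨t, ht⟩ := hZ.union r
  have ht' : ∀ y, E y t ↔ ∃ n z, App E g n z ∧ E y z := fun y => by
    rw [ht]
    constructor
    · rintro ⟨z, h1, h2⟩
      obtain ⟨n, hn⟩ := (hr z).1 h1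
      exact ⟨n, z, hn, h2⟩
    · rintro ⟨n, z, h1, h2⟩
      exact ⟨z, (hr z).2 ⟨n, h1⟩, h2⟩
  refine ⟨t, fun y hy x hx => ?_, fun x hx => ?_⟩
  · obtain ⟨n, z, hnz, hyz⟩ := (ht' y).1 hy
    obtain ⟨m, hm⟩ := hZ.exSucc n
    have hnw := hg.dom hZ hnz
    have hmw := hw.succ hZ hnw hm
    obtain ⟨z', hz'⟩ := hg.ex hmw
    obtain ⟨s, hs, hsg, rfl⟩ := hrec m z' hz'
    refine (ht' x).2 ⟨m, F s, hz', (hFQ s x).2 (Or.inr ⟨⟨m, hs⟩, n, z, y, ?_, hyz, hx⟩)⟩
    obtain ⟨z1, hz1⟩ := hs.ex hm.self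
    obtain rfl := hg.val hZ hnz (hsg n z1 hz1)
    exact hz1
  · obtain ⟨e, he⟩ := hZ.exEmp
    obtain ⟨z, hz⟩ := hg.ex (hw.zero hZ he)
    obtain ⟨s, hs, hsg, rfl⟩ := hrec e z hz
    exact (ht' x).2 ⟨e, F s, hz, (hFQ s x).2 (Or.inl hx)⟩

/-- every set lies in some `V_α` -/
theorem IsZFC.exRank (x : N) : ∃ α v, IsOrd E α ∧ IsV E α v ∧ E x v := by
  obtain ⟨s, hs⟩ := hZ.exUPair x x
  obtain ⟨t, htr, hst⟩ := hZ.exTrSup s
  by_contra hn
  have hP : Def1 E (fun x => ¬ ∃ α v, IsOrd E α ∧ IsV E α v ∧ E x v) := by (repeat' (first | assumption | (apply DefFun.comp; assumption) | apply IsLim.df | apply Cov.df | apply IsHart.df | apply Instr.df | apply IsNum.df | apply IsEval.df | apply IsAsg.df | apply IsProg.df | apply IsStr.df | apply IsTyp.df | apply IsCard.df | apply HasRank.df | apply IsV.df | apply IsVseq.df | apply Maps.df | apply IsFun.df | apply App.df | apply IsOmega.df | apply IsNat.df | apply IsZS.df | apply IsOrd.df | apply IsTr.df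 | apply IsSucc.df | apply IsPair.df | apply IsUPair.df | apply IsEmp.df | apply Sub.df | exact DefFun.var _ | exact DefFun.const _ | apply Def.eq | apply Def.mem | apply Def.not | apply Def.and | apply Def.or | apply Def.iff | apply Def.imp | apply Def.exU | apply Def.ex | apply Def.all))
  obtain ⟨m, hmt, hm, hmin⟩ := hZ.minOf hP ⟨x, hst x ((hs x).2 (Or.inl rfl)), hn⟩
  have hD : Def2 E (fun y α => IsOrd E α ∧ (∃ v, IsV E α v ∧ E y v) ∧ ∀ β, E β α → ¬ ∃ v, IsV E β v ∧ E y v) := by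
    (repeat' (first | assumption | (apply DefFun.comp; assumption) | apply IsLim.df | apply Cov.df | apply IsHart.df | apply Instr.df | apply IsNum.df | apply IsEval.df | apply IsAsg.df | apply IsProg.df | apply IsStr.df | apply IsTyp.df | apply IsCard.df | apply HasRank.df | apply IsV.df | apply IsVseq.df | apply Maps.df | apply IsFun.df | apply App.df | apply IsOmega.df | apply IsNat.df | apply IsZS.df | apply IsOrd.df | apply IsTr.df | apply IsSucc.df | apply IsPair.df | apply IsUPair.df | apply IsEmp.df | apply Sub.df | exact DefFun.var _ | exact DefFun.const _ | apply Def.eq | apply Def.mem | apply Def.not | apply Def.and | apply Def.or | apply Def.iff | apply Def.imp | apply Def.exU | apply Def.ex | apply Def.all))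
  have hu : ∀ y, E y m → ∀ α β, (IsOrd E α ∧ (∃ v, IsV E α v ∧ E y v) ∧ ∀ β, E β α → ¬ ∃ v, IsV E β v ∧ E y v) →
      (IsOrd E β ∧ (∃ v, IsV E β v ∧ E y v) ∧ ∀ γ, E γ β → ¬ ∃ v, IsV E γ v ∧ E y v) → α = β := by
    intro y _ α β h1 h2
    rcases h1.1.tri hZ h2.1 with h3 | h3 | h3
    · exact (h2.2.2 α h3 h1.2.1).elim
    · exact h3
    · exact (h1.2.2 β h3 h2.2.1).elim
  obtain ⟨S, hS⟩ := hZ.repl2 hD m hu
  obtain ⟨β, hβ, hSβ⟩ := hZ.ordBound (a := S) (fun α hα => by
    obtain ⟨y, _, h1⟩ := (hS α).1 hα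
    exact h1.1)
  obtain ⟨v, hv⟩ := hZ.exV hβ
  obtain ⟨β', hβ'⟩ := hZ.exSucc β
  have hβo := IsSucc.ord hβ hβ'
  obtain ⟨v', hv'⟩ := hZ.exV hβo
  refine hm ⟨β', v', hβo, hv', (hv'.mem_iff hZ hβo).2 ⟨β, v, hβ'.self, hv, fun y hy => ?_⟩⟩
  have hyt := htr m hmt y hy
  have h1 := hmin y hy hyt
  push Not at h1
  obtain ⟨α, v1, hα, hv1, hyv1⟩ := h1
  obtain ⟨α', hα', h2, h3⟩ := hα.least hZ (P := fun α => ∃ v, IsV E α v ∧ E y v) (by (repeat' (first | assumption | (apply DefFun.comp; assumption) | apply IsLim.df | apply Cov.df | apply IsHart.df | apply Instr.df | apply IsNum.df | apply IsEval.df | apply IsAsg.df | apply IsProg.df | apply IsStr.df | apply IsTyp.df | apply IsCard.df | apply HasRank.df | apply IsV.df | apply IsVseq.df | apply Maps.df | apply IsFun.df | apply App.df | apply IsOmega.df | apply IsNat.df | apply IsZS.df | apply IsOrd.df | apply IsTr.df | apply IsSucc.df | apply IsPair.df | apply IsUPair.df | apply IsEmp.df | apply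 Sub.df | exact DefFun.var _ | exact DefFun.const _ | apply Def.eq | apply Def.mem | apply Def.not | apply Def.and | apply Def.or | apply Def.iff | apply Def.imp | apply Def.exU | apply Def.ex | apply Def.all))) ⟨v1, hv1, hyv1⟩
  have h4 : E α' S := (hS α').2 ⟨y, hy, hα', h2, h3⟩
  obtain ⟨v2, hv2, hyv2⟩ := h2
  exact hv.mono hZ hβ (hSβ α' h4) hv2 y hyv2

/-- every set lies in `V_l` for arbitrarily large limit ordinals `l` -/
theorem IsZFC.exRankLim (x : N) {α : N} (hα : IsOrd E α) :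
    ∃ l v, IsLim E l ∧ E α l ∧ (∀ w, IsOmega E w → E w l) ∧ IsV E l v ∧ E x v := by
  obtain ⟨β, v, hβ, hv, hxv⟩ := hZ.exRank x
  have h0 : ∃ γ, IsOrd E γ ∧ Sub E α γ ∧ Sub E β γ := by
    rcases hα.tri hZ hβ with h | rfl | h
    · exact ⟨β, hβ, (hα.sub_iff hZ hβ).2 (Or.inl h), fun _ h => h⟩
    · exact ⟨α, hα, fun _ h => h, fun _ h => h⟩
    · exact ⟨α, hα, fun _ h => h, (hβ.sub_iff hZ hα).2 (Or.inl h)⟩
  obtain ⟨γ, hγ, h1, h2⟩ := h0
  obtain ⟨l, hl, hγl, hwl⟩ := hZ.exLim hγ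
  obtain ⟨v', hv'⟩ := hZ.exV hl.1
  have hin : ∀ δ, IsOrd E δ → Sub E δ γ → E δ l := fun δ hδ h => by
    rcases (hδ.sub_iff hZ hγ).1 h with h3 | rfl
    · exact hl.1.trans hγl h3
    · exact hγl
  exact ⟨l, v', hl, hin α hα h1, hwl, hv', hv'.mono hZ hl.1 (hin β hβ h2) hv x hxv⟩

end

end HESR
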