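import Pool.Agent.W_MP_315f31_lc.C.Card

set_option autoImplicit false

/-!
# MP_315f31_lc, part C: regular cardinals in a model of ZFC
-/

namespace HESR
universe u
variable {N : Type u} {E : N → N → Prop}

section
variable (hZ : IsZFC E)
include hZ

/-- the set of all functions from `a` to `b` -/
theorem IsZFC.exMaps (a b : N) : ∃ P, ∀ g, E g P ↔ Maps E g a b := by
  obtain ⟨pr, hpr⟩ := hZ.exProd a b
  obtain ⟨q, hq⟩ := hZ.exPow pr
  obtain ⟨P, hP⟩ := hZ.sep1 (P := fun g => Maps E g a b) (by (repeat' (first | assumption | (apply DefFun.comp; assumption) | apply Instr.df | apply IsNum.df | apply IsEval.df | apply IsAsg.df | apply IsProg.df | apply IsStr.df | apply IsTyp.df | apply IsCard.df | apply HasRank.df | apply IsV.df | apply IsVseq.df | apply Maps.df | apply IsFun.df | apply App.df | apply IsOmega.df | apply IsNat.df | apply IsZS.df | apply IsOrd.df | apply IsTr.df | apply IsSucc.df | apply IsPair.df | apply IsUPair.df | apply IsEmp.df | apply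 Sub.df | exact DefFun.var _ | exact DefFun.const _ | apply Def.eq | apply Def.mem | apply Def.not | apply Def.and | apply Def.or | apply Def.iff | apply Def.imp | apply Def.exU | apply Def.ex | apply Def.all))) q
  refine ⟨P, fun g => (hP g).trans ⟨fun h => h.2, fun h => ⟨(hq g).2 fun p hp => ?_, h⟩⟩⟩
  obtain ⟨x, y, hx, hxy⟩ := h.1.1 p hp
  exact (hpr p).2 ⟨x, y, hx, h.2 x y ⟨p, hp, hxy⟩, hxy⟩

/-- choice for a definable family of nonempty subsets of a set `P` -/
theorem IsZFC.exSelect {R : N → N → Prop} (hR : Def2 E R) (b P : N) (h : ∀ x, E x b → ∃ y, E y P ∧ R x y) :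
    ∃ c, IsFun E c b ∧ ∀ x y, App E c x y → E y P ∧ R x y := by
  have h1 : ∀ x, ∃ G, ∀ y, E y G ↔ E y P ∧ R x y := fun x =>
    hZ.sep1 (P := fun y => R x y) (Def.sub2 hR (DefFun.const _) (DefFun.var _)) P
  have hD : Def2 E (fun x G => ∀ y, E y G ↔ E y P ∧ R x y) :=
    Def.all (R := fun y v => E y (v 1) ↔ E y P ∧ R (v 0) y)
      (Def.iff (Def.mem (DefFun.var _) (DefFun.var _)) (Def.and (Def.mem (DefFun.var _) (DefFun.const _))
        (Def.sub2 hR (DefFun.var _) (DefFun.var _))))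
  have hu : ∀ x G G', (∀ y, E y G ↔ E y P ∧ R x y) → (∀ y, E y G' ↔ E y P ∧ R x y) → G = G' :=
    fun x G G' h h' => hZ.ext _ _ fun y => (h y).trans (h' y).symm
  obtain ⟨S, hS⟩ := hZ.repl2 hD b (fun x _ => hu x)
  obtain ⟨f, hf, hfc⟩ := hZ.exChoice S (fun G hG => by
    obtain ⟨x, hx, hG'⟩ := (hS G).1 hG
    obtain ⟨y, hy⟩ := h x hx
    exact ⟨y, (hG' y).2 hy⟩)
  have hD2 : Def2 E (fun x y => ∃ G, (∀ z, E z G ↔ E z P ∧ R x z) ∧ App E f G y) :=
    Def.ex (R := fun G v => (∀ z, E z G ↔ E z P ∧ R (v 0) z) ∧ App E f G (v 1))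
      (Def.and (Def.sub2 hD (DefFun.var _) (DefFun.var _)) (App.df (DefFun.const _) (DefFun.var _) (DefFun.var _)))
  obtain ⟨c, hc, hcapp⟩ := hZ.exFun hD2 b (fun x hx => by
    obtain ⟨G, hG⟩ := h1 x
    obtain ⟨y, hy⟩ := hf.ex ((hS G).2 ⟨x, hx, hG⟩)
    refine ⟨y, ⟨G, hG, hy⟩, ?_⟩
    rintro y' ⟨G', hG', hy'⟩
    obtain rfl := hu x G G' hG hG'
    exact hf.val hZ hy' hy)
  refine ⟨c, hc, fun x y hxy => ?_⟩
  obtain ⟨G, hG, hy⟩ := (hcapp x (hc.dom hZ hxy) y).1 hxy
  exact (hG y).1 (hfc G y hy)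

theorem IsOmega.zero {w z : N} (hw : IsOmega E w) (hz : IsEmp E z) : E z w :=
  (hw.mem_iff hZ).2 hz.nat

theorem IsOmega.succ {w n m : N} (hw : IsOmega E w) (hn : E n w) (hs : IsSucc E m n) : E m w :=
  (hw.mem_iff hZ).2 (hs.nat ((hw.mem_iff hZ).1 hn))

/-- a set which contains `ω` as a subset and covers `β` covers the successor of `β` -/
theorem Cov.succ {w a β β' : N} (hw : IsOmega E w) (hwa : Sub E w a) (h : Cov E a β) (hs : IsSucc E β' β) :
    Cov E a β' := by
  obtain ⟨f, hf, hc⟩ := h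
  obtain ⟨z, hz⟩ := hZ.exEmp
  refine Cov.ofRel hZ (R := fun x y => (x = z ∧ y = β) ∨ (E x w ∧ ∃ n, IsSucc E x n ∧ App E f n y) ∨
    (¬ E x w ∧ App E f x y)) (by (repeat' (first | assumption | (apply DefFun.comp; assumption) | apply Instr.df | apply IsNum.df | apply IsEval.df | apply IsAsg.df | apply IsProg.df | apply IsStr.df | apply IsTyp.df | apply IsCard.df | apply HasRank.df | apply IsV.df | apply IsVseq.df | apply Maps.df | apply IsFun.df | apply App.df | apply IsOmega.df | apply IsNat.df | apply IsZS.df | apply IsOrd.df | apply IsTr.df | apply IsSucc.df | apply IsPair.df | apply IsUPair.df | apply IsEmp.df | apply Sub.df | exact DefFun.var _ | exact DefFun.const _ | apply Def.eq | apply Def.mem | apply Def.not | apply Def.and | apply Def.or | apply Def.iff | apply Def.imp | apply Def.exU | apply Def.ex | apply Def.all))) ?_ ?_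
  · intro x _ y y' h1 h2
    rcases h1 with ⟨rfl, rfl⟩ | ⟨h1, n, hn, h3⟩ | ⟨h1, h3⟩
    · rcases h2 with ⟨_, rfl⟩ | ⟨_, n, hn, _⟩ | ⟨h4, _⟩
      · rfl
      · exact (hz n hn.self).elim
      · exact (h4 (hw.zero hZ hz)).elim
    · rcases h2 with ⟨rfl, _⟩ | ⟨_, n', hn', h4⟩ | ⟨h4, _⟩
      · exact (hz n hn.self).elim
      · obtain rfl := hn.inj hZ hn'
        exact hf.val hZ h3 h4
      · exact (h4 h1).elim
    · rcases h2 with ⟨rfl, _⟩ | ⟨h4, _⟩ | ⟨_, h4⟩
      · exact (h1 (hw.zero hZ hz)).elim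
      · exact (h1 h4).elim
      · exact hf.val hZ h3 h4
  · intro y hy
    rcases (hs y).1 hy with h1 | rfl
    · obtain ⟨x, hx⟩ := hc y h1
      by_cases hxw : E x w
      · obtain ⟨x', hx'⟩ := hZ.exSucc x
        have h2 := hw.succ hZ hxw hx'
        exact ⟨x', hwa x' h2, Or.inr (Or.inl ⟨h2, x, hx', hx⟩)⟩
      · exact ⟨x, hf.dom hZ hx, Or.inr (Or.inr ⟨hxw, hx⟩)⟩
    · exact ⟨z, hwa z (hw.zero hZ hz), Or.inl ⟨rfl, rfl⟩⟩

theorem IsHart.lim {a κ w : N} (h : IsHart E a κ) (hw : IsOmega E w) (hwa : Sub E w a) : IsLim E κ := by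
  refine ⟨h.1, ⟨w, (h.2 w hw.1).2 (Cov.ofSub hZ hwa)⟩, fun x hx => ?_⟩
  obtain ⟨y, hy⟩ := hZ.exSucc x
  have hxo := h.1.mem hx
  refine ⟨y, (h.2 y (IsSucc.ord hxo hy)).2 ?_, hy⟩
  exact Cov.succ hZ hw hwa ((h.2 x hxo).1 hx) hy

theorem IsHart.omega_mem {a κ w : N} (h : IsHart E a κ) (hw : IsOmega E w) (hwa : Sub E w a) : E w κ :=
  (h.2 w hw.1).2 (Cov.ofSub hZ hwa)

/-- limit ordinals are unbounded -/
theorem IsZFC.exLim {α : N} (hα : IsOrd E α) : ∃ l, IsLim E l ∧ E α l ∧ ∀ w, IsOmega E w → E w l := by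
  obtain ⟨w, hw⟩ := hZ.exOmega
  obtain ⟨a, ha⟩ := hZ.exUnion2 w α
  obtain ⟨κ, hκ⟩ := hZ.exHart a
  have hwa : Sub E w a := fun x hx => (ha x).2 (Or.inl hx)
  refine ⟨κ, hκ.lim hZ hw hwa, (hκ.2 α hα).2 (Cov.ofSub hZ fun x hx => (ha x).2 (Or.inr hx)), fun w' hw' => ?_⟩
  obtain rfl := hw'.uniq hZ hw
  exact hκ.omega_mem hZ hw hwa

end

/-- `θ` is an uncountable regular cardinal: a limit ordinal which contains `ω`, and functions from elements of `θ` to `θ` are
bounded -/
def IsRegC (E : N → N → Prop) (θ : N) : Prop :=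
  IsLim E θ ∧ (∀ w, IsOmega E w → E w θ) ∧
    ∀ β f, E β θ → Maps E f β θ → ∃ γ, E γ θ ∧ ∀ x y, App E f x y → E y γ

theorem IsRegC.df {k : ℕ} {f : (Fin k → N) → N} (hf : DefFun E f) : Def E (fun v => IsRegC E (f v)) :=
  Def.sub1 (P := fun θ => IsRegC E θ) (by
    unfold IsRegC
    refine Def.and (IsLim.df (DefFun.var _)) ?_
    (repeat' (first | assumption | (apply DefFun.comp; assumption) | apply Instr.df | apply IsNum.df | apply IsEval.df | apply IsAsg.df | apply IsProg.df | apply IsStr.df | apply IsTyp.df | apply IsCard.df | apply HasRank.df | apply IsV.df | apply IsVseq.df | apply Maps.df | apply IsFun.df | apply App.df | apply IsOmega.df | apply IsNat.df | apply IsZS.df | apply IsOrd.df | apply IsTr.df | apply IsSucc.df | apply IsPair.df | apply IsUPair.df | apply IsEmp.df | apply Sub.df | exact DefFun.var _ | exact DefFun.const _ | apply Def.eq | apply Def.mem | apply Def.not | apply Def.and | apply Def.or | apply Def.iff | apply Def.imp |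 apply Def.exU | apply Def.ex | apply Def.all))) hf

section
variable (hZ : IsZFC E)
include hZ

/-- functional relations from an element of a regular cardinal are bounded -/
theorem IsRegC.bdd {θ b : N} (h : IsRegC E θ) {R : N → N → Prop} (hR : Def2 E R) {β : N} (hβ : E β θ)
    (hb : Cov E β b) (hf : ∀ x, E x b → ∀ y z, R x y → R x z → y = z) (hm : ∀ x y, E x b → R x y → E y θ) :
    ∃ γ, E γ θ ∧ ∀ x y, E x b → R x y → E y γ := by
  obtain ⟨e, he⟩ := hZ.exEmp
  obtain ⟨g, hg, hgb⟩ := hb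
  have heθ : E e θ := by
    rcases he.ord.tri hZ h.1.1 with h1 | rfl | h1
    · exact h1
    · exact (he β hβ).elim
    · exact (he θ h1).elim
  have hD : Def2 E (fun s y => ∃ x, App E g s x ∧ E x b ∧ R x y) :=
    Def.ex (R := fun x v => App E g (v 0) x ∧ E x b ∧ R x (v 1))
      (Def.and (App.df (DefFun.const _) (DefFun.var _) (DefFun.var _))
        (Def.and (Def.mem (DefFun.var _) (DefFun.const _)) (Def.sub2 hR (DefFun.var _) (DefFun.var _))))
  have hD' : Def2 E (fun s y => (∃ x, App E g s x ∧ E x b ∧ R x y) ∨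
      (¬ (∃ y, ∃ x, App E g s x ∧ E x b ∧ R x y) ∧ y = e)) :=
    Def.or hD (Def.and (Def.not (Def.ex (R := fun y v => ∃ x, App E g (v 0) x ∧ E x b ∧ R x y)
      (Def.sub2 hD (DefFun.var _) (DefFun.var _)))) (Def.eq (DefFun.var _) (DefFun.const _)))
  have hfun : ∀ s y y', (∃ x, App E g s x ∧ E x b ∧ R x y) → (∃ x, App E g s x ∧ E x b ∧ R x y') → y = y' := by
    rintro s y y' ⟨x, h1, h2, h3⟩ ⟨x', h1', _, h3'⟩
    obtain rfl := hg.val hZ h1 h1'
    exact hf x h2 y y' h3 h3'
  obtain ⟨l, hl, happ⟩ := hZ.exFun hD' β (fun s _ => by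
    by_cases hn : ∃ y, ∃ x, App E g s x ∧ E x b ∧ R x y
    · obtain ⟨y, hy⟩ := hn
      refine ⟨y, Or.inl hy, ?_⟩
      rintro y' (h1 | h1)
      · exact hfun s y' y h1 hy
      · exact (h1.1 ⟨y, hy⟩).elim
    · refine ⟨e, Or.inr ⟨hn, rfl⟩, ?_⟩
      rintro y' (h1 | h1)
      · exact (hn ⟨y', h1⟩).elim
      · exact h1.2)
  obtain ⟨γ, hγ, hb'⟩ := h.2.2 β l hβ ⟨hl, fun s y hsy => by
    rcases (happ s (hl.dom hZ hsy) y).1 hsy with ⟨x, _, h2, h3⟩ | ⟨_, rfl⟩
    · exact hm x y h2 h3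
    · exact heθ⟩
  refine ⟨γ, hγ, fun x y hx hxy => ?_⟩
  obtain ⟨s, hs⟩ := hgb x hx
  exact hb' s y ((happ s (hg.dom hZ hs) y).2 (Or.inl ⟨x, hs, hx, hxy⟩))

/-- a regular cardinal is a cardinal -/
theorem IsRegC.card {θ : N} (h : IsRegC E θ) : IsCard E θ := by
  refine ⟨h.1.1, fun β f hβ hf hon => ?_⟩
  obtain ⟨γ, hγ, hb⟩ := h.bdd hZ (R := fun x y => App E f x y ∧ E y θ) (by (repeat' (first | assumption | (apply DefFun.comp; assumption) | apply Instr.df | apply IsNum.df | apply IsEval.df | apply IsAsg.df | apply IsProg.df | apply IsStr.df | apply IsTyp.df | apply IsCard.df | apply HasRank.df | apply IsV.df | apply IsVseq.df | apply Maps.df | apply IsFun.df | apply App.df | apply IsOmega.df | apply IsNat.df | apply IsZS.df | apply IsOrd.df | apply IsTr.df | apply IsSucc.df | apply IsPair.df | apply IsUPair.df | apply IsEmp.df | apply Sub.df | exact DefFun.var _ | exact DefFun.const _ | apply Def.eq | apply Def.mem | apply Def.not | apply Def.and |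 apply Def.or | apply Def.iff | apply Def.imp | apply Def.exU | apply Def.ex | apply Def.all))) hβ (Cov.refl hZ β)
    (fun x _ y z h1 h2 => hf.val hZ h1.1 h2.1) (fun x y _ h1 => h1.2)
  obtain ⟨x, hx⟩ := hon γ hγ
  exact hZ.irrefl γ (hb x γ (hf.dom hZ hx) ⟨hx, hγ⟩)

/-- the Hartogs number of a set closed under pairs is regular -/
theorem IsHart.reg {a κ w : N} (h : IsHart E a κ) (hw : IsOmega E w) (hwa : Sub E w a)
    (hp : ∀ x y p, E x a → E y a → IsPair E p x y → E p a) : IsRegC E κ := by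
  refine ⟨h.lim hZ hw hwa, fun w' hw' => by
    obtain rfl := hw'.uniq hZ hw
    exact h.omega_mem hZ hw hwa, fun β f hβ hf => ?_⟩
  by_contra hn
  push Not at hn
  apply h.not_cov hZ
  obtain ⟨P, hP⟩ := hZ.exMaps a κ
  have hκo := h.1
  obtain ⟨e, he⟩ := hZ.exEmp
  have heκ : E e κ := by
    rcases he.ord.tri hZ hκo with h1 | rfl | h1
    · exact h1
    · exact (he β hβ).elim
    · exact (he κ h1).elim
  -- functions from `a` onto the elements of `κ`
  obtain ⟨c, hc, hcm⟩ := hZ.exSelect (R := fun y g => ∀ t, E t y → ∃ s, App E g s t) (by (repeat' (first | assumption | (apply DefFun.comp; assumption) | apply Instr.df | apply IsNum.df | apply IsEval.df | apply IsAsg.df | apply IsProg.df | apply IsStr.df | apply IsTyp.df | apply IsCard.df | apply HasRank.df | apply IsV.df | apply IsVseq.df | apply Maps.df | apply IsFun.df | apply App.df | apply IsOmega.df | apply IsNat.df | apply IsZS.df | apply IsOrd.df | apply IsTr.df | apply IsSucc.df | apply IsPair.df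 | apply IsUPair.df | apply IsEmp.df | apply Sub.df | exact DefFun.var _ | exact DefFun.const _ | apply Def.eq | apply Def.mem | apply Def.not | apply Def.and | apply Def.or | apply Def.iff | apply Def.imp | apply Def.exU | apply Def.ex | apply Def.all))) κ P
    (fun y hy => by
      obtain ⟨g, hg, hgc⟩ := (h.2 y (hκo.mem hy)).1 hy
      obtain ⟨g', hg', happ⟩ := hZ.exFun (R := fun s t => (App E g s t ∧ E t κ) ∨
        (¬ (∃ t', App E g s t' ∧ E t' κ) ∧ t = e)) (by (repeat' (first | assumption | (apply DefFun.comp; assumption) | apply Instr.df | apply IsNum.df | apply IsEval.df | apply IsAsg.df | apply IsProg.df | apply IsStr.df | apply IsTyp.df | apply IsCard.df | apply HasRank.df | apply IsV.df | apply IsVseq.df | apply Maps.df | apply IsFun.df | apply App.df | apply IsOmega.df | apply IsNat.df | apply IsZS.df | apply IsOrd.df | apply IsTr.df | apply IsSucc.df | apply IsPair.df | apply IsUPair.df | apply IsEmp.df | apply Sub.df | exact DefFun.var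 _ | exact DefFun.const _ | apply Def.eq | apply Def.mem | apply Def.not | apply Def.and | apply Def.or | apply Def.iff | apply Def.imp | apply Def.exU | apply Def.ex | apply Def.all))) a (fun s hs => by
          obtain ⟨t, ht⟩ := hg.ex hs
          by_cases htκ : E t κ
          · refine ⟨t, Or.inl ⟨ht, htκ⟩, ?_⟩
            rintro t' (⟨h1, _⟩ | ⟨h1, _⟩)
            · exact hg.val hZ h1 ht
            · exact (h1 ⟨t, ht, htκ⟩).elim
          · refine ⟨e, Or.inr ⟨?_, rfl⟩, ?_⟩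
            · rintro ⟨t', h1, h2⟩
              obtain rfl := hg.val hZ ht h1
              exact htκ h2
            · rintro t' (⟨h1, h2⟩ | ⟨_, h1⟩)
              · obtain rfl := hg.val hZ ht h1
                exact (htκ h2).elim
              · exact h1)
      refine ⟨g', (hP g').2 ⟨hg', fun s t hst => ?_⟩, fun t ht => ?_⟩
      · rcases (happ s (hg'.dom hZ hst) t).1 hst with h1 | ⟨_, rfl⟩
        · exact h1.2
        · exact heκ
      · obtain ⟨s, hs⟩ := hgc t ht
        exact ⟨s, (happ s (hg.dom hZ hs) t).2 (Or.inl ⟨hs, hκo.trans hy ht⟩)⟩)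
  obtain ⟨l, hl, hlc⟩ := (h.2 β (hκo.mem hβ)).1 hβ
  refine Cov.ofRel hZ (R := fun p z => ∃ u v x y g, IsPair E p u v ∧ App E l u x ∧ App E f x y ∧
    App E c y g ∧ App E g v z) (by (repeat' (first | assumption | (apply DefFun.comp; assumption) | apply Instr.df | apply IsNum.df | apply IsEval.df | apply IsAsg.df | apply IsProg.df | apply IsStr.df | apply IsTyp.df | apply IsCard.df | apply HasRank.df | apply IsV.df | apply IsVseq.df | apply Maps.df | apply IsFun.df | apply App.df | apply IsOmega.df | apply IsNat.df | apply IsZS.df | apply IsOrd.df | apply IsTr.df | apply IsSucc.df | apply IsPair.df | apply IsUPair.df | apply IsEmp.df | apply Sub.df | exact DefFun.var _ | exact DefFun.const _ | apply Def.eq | apply Def.mem | apply Def.not | apply Def.and | apply Def.or | apply Def.iff | apply Def.imp | apply Def.exU | apply Def.ex | apply Def.all))) ?_ ?_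
  · rintro p _ z z' ⟨u, v, x, y, g, h1, h2, h3, h4, h5⟩ ⟨u', v', x', y', g', h1', h2', h3', h4', h5'⟩
    obtain ⟨rfl, rfl⟩ := IsPair.inj hZ h1 h1'
    obtain rfl := hl.val hZ h2 h2'
    obtain rfl := hf.1.val hZ h3 h3'
    obtain rfl := hc.val hZ h4 h4'
    have hg : IsFun E g a := ((hP g).1 (hcm _ _ h4).1).1
    exact hg.val hZ h5 h5'
  · intro z hz
    obtain ⟨z', hz', hzs⟩ := (h.lim hZ hw hwa).2.2 z hz
    obtain ⟨x, y, hxy, hyz⟩ := hn z' hz'
    have hyκ := hf.2 x y hxy
    have hzy : E z y := by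
      have hyo := hκo.mem hyκ
      rcases (hκo.mem hz).tri hZ hyo with h1 | rfl | h1
      · exact h1
      · exact (hyz ((hzs z).2 (Or.inr rfl))).elim
      · exact (hyz ((hzs y).2 (Or.inl h1))).elim
    obtain ⟨g, hg⟩ := hc.ex hyκ
    obtain ⟨v, hv⟩ := (hcm y g hg).2 z hzy
    have hgf : IsFun E g a := ((hP g).1 (hcm _ _ hg).1).1
    obtain ⟨u, hu⟩ := hlc x (hf.1.dom hZ hxy)
    obtain ⟨p, hp'⟩ := hZ.exPair u v
    exact ⟨p, hp u v p (hl.dom hZ hu) (hgf.dom hZ hv) hp', u, v, x, y, g, hp', hu, hxy, hg, hv⟩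

/-- Regular cardinals are unbounded: for every limit `l > ω` there is a regular cardinal `θ`, the
Hartogs number of `V_l`. -/
theorem IsZFC.exRegC {l t : N} (hl : IsLim E l) (ht : IsV E l t) (hlw : ∀ w, IsOmega E w → E w l) :
    ∃ θ, IsRegC E θ ∧ IsHart E t θ ∧ E l θ ∧ ∃ δ, E δ θ ∧ Cov E δ t := by
  obtain ⟨w, hw⟩ := hZ.exOmega
  obtain ⟨θ, hθ⟩ := hZ.exHart t
  have hlt : Sub E l t := fun x hx => (ht.ord_mem hZ hl.1 (hl.1.mem hx)).2 hx
  have hwt : Sub E w t := fun x hx => hlt x (hl.1.trans (hlw w hw) hx)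
  refine ⟨θ, hθ.reg hZ hw hwt fun x y p hx hy hp => ht.pair_mem hZ hl hx hy hp, hθ,
    (hθ.2 l hl.1).2 (Cov.ofSub hZ hlt), ?_⟩
  obtain ⟨δ, hδ, h1, h2⟩ := hZ.exSize t
  exact ⟨δ, (hθ.2 δ hδ.1).2 h2, h1⟩

end

end HESR
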