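import Pool.Agent.W_MP_315f31_lc.C.Dee

set_option autoImplicit false

/-!
# MP_315f31_lc : the notions of the statement which are uniformly first-order
-/

namespace HESR
universe u
theorem Cov.fo {k : ℕ} (a b : Fin k) : FO.{u} (fun _ E v => Cov E (v a) (v b)) := by
  unfold Cov; (repeat' (first | exact IsFun.fo _ _ | exact App.fo _ _ _ | exact FO.mem _ _ | apply FO.imp | apply FO.and | apply FO.ex | apply FO.all))
end HESR

namespace DCM
open HESR
universe u
variable {k : ℕ}

theorem IsCtb.fo (a : Fin k) : FO.{u} (fun _ E v => IsCtb E (v a)) := by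
  unfold IsCtb; (repeat' (first | exact IsOmega.fo _ | exact Cov.fo _ _ | apply FO.and | apply FO.ex))

theorem IsOm1.fo (a : Fin k) : FO.{u} (fun _ E v => IsOm1 E (v a)) := by
  unfold IsOm1; (repeat' (first | exact IsOrd.fo _ | exact IsCtb.fo _ | exact FO.mem _ _ | apply FO.not | apply FO.and | apply FO.imp | apply FO.all))

theorem IsOm2.fo (a : Fin k) : FO.{u} (fun _ E v => IsOm2 E (v a)) := by
  unfold IsOm2; (repeat' (first | exact IsOrd.fo _ | exact IsOm1.fo _ | exact Cov.fo _ _ | exact FO.mem _ _ | apply FO.not | apply FO.and | apply FO.imp | apply FO.ex | apply FO.all))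

theorem NotCH.fo : FO.{u} (fun _ E (_ : Fin k → _) => NotCH E) := by
  unfold NotCH; (repeat' (first | exact IsOmega.fo _ | exact IsOm1.fo _ | exact Cov.fo _ _ | exact Sub.fo _ _ | exact FO.mem _ _ | apply FO.not | apply FO.and | apply FO.iff | apply FO.imp | apply FO.ex | apply FO.all))

theorem IsAronszajn.fo (a b c : Fin k) : FO.{u} (fun _ E v => IsAronszajn E (v a) (v b) (v c)) := by
  unfold IsAronszajn; (repeat' (first | exact Maps.fo _ _ _ | exact App.fo _ _ _ | exact IsOm2.fo _ | exact IsOm1.fo _ | exact Cov.fo _ _ | exact Sub.fo _ _ | exact FO.mem _ _ | exact FO.eq _ _ | apply FO.not | apply FO.and | apply FO.or | apply FO.iff | apply FO.imp | apply FO.ex | apply FO.all))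

theorem HasAT.fo : FO.{u} (fun _ E (_ : Fin k → _) => HasAT E) := by
  unfold HasAT; (repeat' (first | exact IsAronszajn.fo _ _ _ | apply FO.ex))

end DCM
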